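import Mathlib

set_option autoImplicit false

namespace Pool.Agent.Helper453.Basic

variable {A : Type} [AddCommGroup A]

/-- value of a formal combination -/
noncomputable def ev : (A →₀ ℤ) →ₗ[ℤ] A := Finsupp.linearCombination ℤ id

theorem ev_single (x : A) (k : ℤ) : ev (Finsupp.single x k) = k • x := by
  simp [ev]

/-- pure-independent sets -/
def PI (X : Set A) : Prop :=
  ∀ f : A →₀ ℤ, (↑f.support : Set A) ⊆ X → ∀ (n : ℕ) (a : A), ev f = n • a →
    ∀ x, ∃ k : ℤ, f x • x = ((n : ℤ) * k) • x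

theorem exists_max : ∃ X : Set A, PI X ∧ ∀ Y, PI Y → X ⊆ Y → Y ⊆ X := by
  obtain ⟨X, hX⟩ := zorn_subset {X : Set A | PI X} (by
    intro c hc hchain
    by_cases hne : c.Nonempty
    · refine ⟨⋃₀ c, ?_, fun s hs => Set.subset_sUnion_of_mem hs⟩
      intro f hf n a h
      have : ∃ Y ∈ c, (↑f.support : Set A) ⊆ Y := by
        exact DirectedOn.exists_mem_subset_of_finset_subset_biUnion hne hchain.directedOn
          (by simpa [Set.sUnion_eq_biUnion] using hf)
      obtain ⟨Y, hY, hfY⟩ := this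
      exact hc hY f hfY n a h
    · refine ⟨∅, ?_, fun s hs => absurd ⟨s, hs⟩ hne⟩
      intro f hf n a h x
      have : f = 0 := by
        rw [← Finsupp.support_eq_empty]
        exact Finset.coe_eq_empty.1 (Set.subset_empty_iff.1 hf)
      subst this
      exact ⟨0, by simp⟩)
  exact ⟨X, hX.prop, fun Y hY h => hX.le_of_ge hY h⟩

theorem mem_closure_iff {X : Set A} {b : A} :
    b ∈ AddSubgroup.closure X ↔ ∃ f : A →₀ ℤ, (↑f.support : Set A) ⊆ X ∧ ev f = b := by
  classical
  constructor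
  · intro hb
    induction hb using AddSubgroup.closure_induction with
    | mem x hx =>
      refine ⟨Finsupp.single x 1, ?_, by rw [ev_single, one_smul]⟩
      refine (Finset.coe_subset.2 Finsupp.support_single_subset).trans ?_
      simpa using hx
    | zero => exact ⟨0, by simp, by simp⟩
    | add x y _ _ hx hy =>
      obtain ⟨f, hf, hf'⟩ := hx
      obtain ⟨g, hg, hg'⟩ := hy
      refine ⟨f + g, ?_, by rw [map_add, hf', hg']⟩
      refine (Finset.coe_subset.2 Finsupp.support_add).trans ?_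
      rw [Finset.coe_union]
      exact Set.union_subset hf hg
    | neg x _ hx =>
      obtain ⟨f, hf, hf'⟩ := hx
      exact ⟨-f, by rw [Finsupp.support_neg]; exact hf, by rw [map_neg, hf']⟩
  · rintro ⟨f, hf, rfl⟩
    unfold ev
    rw [Finsupp.linearCombination_apply, Finsupp.sum]
    refine AddSubgroup.sum_mem _ ?_
    intro x hx
    exact AddSubgroup.zsmul_mem _ (AddSubgroup.subset_closure (hf hx)) _

/-- the subgroup generated by a pure-independent set is pure -/
theorem pure {X : Set A} (hX : PI X) {n : ℕ} {a : A} (h : n • a ∈ AddSubgroup.closure X) :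
    ∃ b ∈ AddSubgroup.closure X, n • a = n • b := by
  classical
  obtain ⟨f, hf, hfa⟩ := mem_closure_iff.1 h
  have h1 := hX f hf n a hfa
  choose k hk using h1
  refine ⟨∑ x ∈ f.support, k x • x, ?_, ?_⟩
  · refine AddSubgroup.sum_mem _ ?_
    intro x hx
    exact AddSubgroup.zsmul_mem _ (AddSubgroup.subset_closure (hf hx)) _
  · rw [← hfa]
    unfold ev
    rw [Finsupp.linearCombination_apply, Finsupp.sum, Finset.smul_sum]
    refine Finset.sum_congr rfl ?_
    intro x _
    simp only [id]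
    rw [hk x, ← natCast_zsmul (k x • x) n, smul_smul]

theorem div_prime (htor : ∀ a : A, IsOfFinAddOrder a) {X : Set A} (hX : PI X)
    (hmax : ∀ Y, PI Y → X ⊆ Y → Y ⊆ X) {p : ℕ} (hp : p.Prime) (a : A) :
    ∃ y, a - p • y ∈ AddSubgroup.closure X := by
  classical
  by_contra hbad
  let B := AddSubgroup.closure X
  let Bad : A → Prop := fun a => ¬ ∃ y, a - p • y ∈ B
  have hex : ∃ m : ℕ, ∃ a, Bad a ∧ (p ^ m) • a ∈ B := by
    obtain ⟨n, hn, hna⟩ := (isOfFinAddOrder_iff_nsmul_eq_zero).1 (htor a)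
    obtain ⟨e, s, hs, rfl⟩ := Nat.exists_eq_pow_mul_and_not_dvd hn.ne' p hp.ne_one
    have hcop : IsCoprime ((p : ℤ) ^ (e + 1)) (s : ℤ) := by
      have : Nat.Coprime (p ^ (e + 1)) s := Nat.Coprime.pow_left _ ((hp.coprime_iff_not_dvd).2 hs)
      have h2 := Nat.isCoprime_iff_coprime.2 this
      push_cast at h2
      exact h2
    obtain ⟨u, v, huv⟩ := hcop
    refine ⟨e, v • (s • a), ?_, ?_⟩
    · rintro ⟨y, hy⟩
      apply hbad
      refine ⟨y + (u * (p : ℤ) ^ e) • a, ?_⟩
      have e1 : a - p • (y + (u * (p : ℤ) ^ e) • a) = v • (s • a) - p • y := by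
        have h3 : a = (u * (p : ℤ) ^ (e + 1) + v * s) • a := by rw [huv, one_smul]
        have h4 : a - p • (y + (u * (p : ℤ) ^ e) • a) =
            (u * (p : ℤ) ^ (e + 1) + v * s) • a - p • (y + (u * (p : ℤ) ^ e) • a) := by
          rw [← h3]
        rw [h4, ← natCast_zsmul a s, ← natCast_zsmul _ p, ← natCast_zsmul y p]
        module
      rw [e1]; exact hy
    · have : (p ^ e) • (v • (s • a)) = v • ((p ^ e * s) • a) := by
        rw [mul_smul, smul_comm]
      rw [this, hna, smul_zero]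
      exact B.zero_mem
  obtain ⟨m, hm⟩ : ∃ m, m = Nat.find hex := ⟨_, rfl⟩
  have hm1 : ∃ a, Bad a ∧ (p ^ m) • a ∈ B := hm ▸ Nat.find_spec hex
  have hm2 : ∀ m', m' < m → ¬ ∃ a, Bad a ∧ (p ^ m') • a ∈ B :=
    fun m' h => Nat.find_min hex (hm ▸ h)
  obtain ⟨a₁, ha₁, ha₁'⟩ := hm1
  obtain ⟨b, hb, hab⟩ := pure hX ha₁'
  have hm0 : m ≠ 0 := by
    rintro rfl
    apply ha₁
    refine ⟨0, ?_⟩
    simpa using ha₁'
  obtain ⟨t, rfl⟩ := Nat.exists_eq_succ_of_ne_zero hm0
  -- the new element
  obtain ⟨c, hc⟩ : ∃ c, c = a₁ - b := ⟨_, rfl⟩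
  have hcbad : Bad c := by
    rintro ⟨y, hy⟩
    apply ha₁
    refine ⟨y, ?_⟩
    have : a₁ - p • y = (c - p • y) + b := by rw [hc]; abel
    rw [this]; exact B.add_mem hy hb
  have hc0 : (p ^ (t + 1)) • c = 0 := by
    rw [hc, smul_sub, hab, sub_self]
  have hH : ∀ y, (p ^ t) • c - (p ^ (t + 1)) • y ∉ B := by
    intro y hy
    refine hm2 t (Nat.lt_succ_self t) ⟨c - p • y, ?_, ?_⟩
    · rintro ⟨z, hz⟩
      apply hcbad
      refine ⟨y + z, ?_⟩
      have : c - p • (y + z) = c - p • y - p • z := by rw [smul_add]; abel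
      rw [this]; exact hz
    · have : (p ^ t) • (c - p • y) = (p ^ t) • c - (p ^ (t + 1)) • y := by
        rw [smul_sub, smul_smul, pow_succ]
      rw [this]; exact hy
  have hcB : c ∉ B := by
    intro h
    apply hcbad
    exact ⟨0, by simpa using h⟩
  -- key divisibility fact
  have hkey : ∀ (l : ℤ) (n : ℕ) (a' : A), l • c - n • a' ∈ B →
      ∃ k : ℤ, l • c = ((n : ℤ) * k) • c := by
    intro l n a' hla
    have hg : ((Nat.gcd n (p ^ (t + 1)) : ℕ) : ℤ) ∣ l := by
      by_contra hndvd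
      obtain ⟨j', hj', hgj⟩ := (Nat.dvd_prime_pow hp).1 (Nat.gcd_dvd_right n (p ^ (t + 1)))
      rw [hgj] at hndvd
      have hexi : ∃ i : ℕ, ¬ ((p : ℤ) ^ i ∣ l) := ⟨j', by push_cast at hndvd; exact hndvd⟩
      obtain ⟨i, hi⟩ : ∃ i, i = Nat.find hexi := ⟨_, rfl⟩
      have hi1 : ¬ ((p : ℤ) ^ i ∣ l) := hi ▸ Nat.find_spec hexi
      have hi2 : ∀ i', i' < i → (p : ℤ) ^ i' ∣ l := by
        intro i' h
        by_contra hcon
        exact Nat.find_min hexi (hi ▸ h) hcon
      have hij : i ≤ j' := by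
        rw [hi]
        apply Nat.find_min'
        push_cast at hndvd; exact hndvd
      have hi0 : i ≠ 0 := by
        rintro h0
        rw [h0] at hi1
        exact hi1 (by simp)
      obtain ⟨i, rfl⟩ := Nat.exists_eq_succ_of_ne_zero hi0
      obtain ⟨u, hu⟩ := hi2 i (Nat.lt_succ_self i)
      have hpu : ¬ ((p : ℤ) ∣ u) := by
        rintro ⟨u', rfl⟩
        apply hi1
        exact ⟨u', by rw [hu, pow_succ]; ring⟩
      have hcop : IsCoprime u (p : ℤ) := by
        have hpp : Prime (p : ℤ) := Nat.prime_iff_prime_int.1 hp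
        exact ((Prime.coprime_iff_not_dvd hpp).2 hpu).symm
      obtain ⟨w, s, hws⟩ := hcop
      obtain ⟨n₂, hn₂⟩ : p ^ j' ∣ n := hgj ▸ Nat.gcd_dvd_left n (p ^ (t + 1))
      -- contradiction with hH
      have hi_le : i + 1 ≤ j' := hij
      have hjt : j' ≤ t + 1 := hj'
      obtain ⟨d, hd⟩ : ∃ d, t = i + d := ⟨t - i, by omega⟩
      obtain ⟨r, hr⟩ : ∃ r, j' = i + 1 + r := ⟨j' - (i + 1), by omega⟩
      apply hH (((p : ℤ) ^ r * n₂ * w) • a' + s • c)
      have h5 := B.zsmul_mem hla (w * (p : ℤ) ^ d)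
      have h6 : (w * (p : ℤ) ^ d) • (l • c - n • a') =
          (p ^ t) • c - (p ^ (t + 1)) • (((p : ℤ) ^ r * n₂ * w) • a' + s • c) := by
        rw [← natCast_zsmul a' n, ← natCast_zsmul c (p ^ t), ← natCast_zsmul _ (p ^ (t + 1)),
          hu, hn₂, hr, hd]
        push_cast
        have h7 : w * u = 1 - s * p := by linarith
        have h8 : (w * (p : ℤ) ^ d) * ((p : ℤ) ^ i * u) = (p : ℤ) ^ (i + d) * (1 - s * p) := by
          rw [← h7, pow_add]; ring
        have h9 : (w * (p : ℤ) ^ d) • (((p : ℤ) ^ i * u) • c) =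
            ((p : ℤ) ^ (i + d) * (1 - s * p)) • c := by rw [smul_smul, h8]
        rw [smul_sub, h9, smul_smul, smul_add, smul_smul, smul_smul]
        have h10 : (w * (p : ℤ) ^ d) * ((p : ℤ) ^ (i + 1 + r) * n₂) =
            (p : ℤ) ^ (i + d + 1) * ((p : ℤ) ^ r * n₂ * w) := by
          rw [pow_add, pow_add, pow_add (p : ℤ) (i + d) 1, pow_add (p : ℤ) i d]; ring
        rw [h10]
        module
      rw [← h6]; exact h5
    obtain ⟨l', hl'⟩ := hg
    have hbez := Nat.gcd_eq_gcd_ab n (p ^ (t + 1))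
    refine ⟨Nat.gcdA n (p ^ (t + 1)) * l', ?_⟩
    have h1 : l = ((n : ℤ) * (Nat.gcdA n (p ^ (t + 1)) * l')) +
        (Nat.gcdB n (p ^ (t + 1)) * l') * (p ^ (t + 1) : ℕ) := by
      rw [hl', hbez]; ring
    have h2 : ((Nat.gcdB n (p ^ (t + 1)) * l') * ((p ^ (t + 1) : ℕ) : ℤ)) • c = 0 := by
      rw [mul_smul, natCast_zsmul, hc0, smul_zero]
    calc l • c = (((n : ℤ) * (Nat.gcdA n (p ^ (t + 1)) * l')) +
        (Nat.gcdB n (p ^ (t + 1)) * l') * ((p ^ (t + 1) : ℕ) : ℤ)) • c := by rw [← h1]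
      _ = ((n : ℤ) * (Nat.gcdA n (p ^ (t + 1)) * l')) • c := by rw [add_smul, h2, add_zero]
  -- the enlarged set is still pure-independent
  have hPI : PI (insert c X) := by
    intro f hf n a' hfa x
    have hsplit : f = f.erase c + Finsupp.single c (f c) := (Finsupp.erase_add_single c f).symm
    have he : (↑(f.erase c).support : Set A) ⊆ X := by
      intro y hy
      rw [Finsupp.support_erase] at hy
      simp only [Finset.coe_erase, Set.mem_sdiff, Set.mem_singleton_iff] at hy
      rcases hf hy.1 with h | h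
      · exact absurd h hy.2
      · exact h
    have hev : ev f = ev (f.erase c) + (f c) • c := by
      conv_lhs => rw [hsplit]
      rw [map_add, ev_single]
    have h1 : (f c) • c - n • a' ∈ B := by
      have h2 : ev (f.erase c) ∈ B := mem_closure_iff.2 ⟨_, he, rfl⟩
      have h3 : (f c) • c - n • a' = - ev (f.erase c) := by
        rw [← hfa, hev]; abel
      rw [h3]; exact B.neg_mem h2
    obtain ⟨k, hk⟩ := hkey _ _ _ h1
    by_cases hx : x = c
    · exact ⟨k, hx ▸ hk⟩
    · have h4 : ev (f.erase c) = n • (a' - k • c) := by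
        have h5 : ev (f.erase c) = n • a' - (f c) • c := by rw [← hfa, hev]; abel
        rw [h5, hk, smul_sub, ← natCast_zsmul (k • c) n, smul_smul]
      obtain ⟨k', hk'⟩ := hX _ he n _ h4 x
      refine ⟨k', ?_⟩
      rw [Finsupp.erase_ne hx] at hk'
      exact hk'
  have := hmax _ hPI (Set.subset_insert c X) (Set.mem_insert c X)
  exact hcB (AddSubgroup.subset_closure this)

theorem div_all (htor : ∀ a : A, IsOfFinAddOrder a) {X : Set A} (hX : PI X)
    (hmax : ∀ Y, PI Y → X ⊆ Y → Y ⊆ X) (n : ℕ) (hn : 0 < n) : ∀ (a : A),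
    ∃ y, a - n • y ∈ AddSubgroup.closure X := by
  induction n using Nat.strong_induction_on with
  | _ n ih =>
  intro a
  by_cases h1 : n = 1
  · subst h1
    exact ⟨a, by simp⟩
  · have hp := Nat.minFac_prime h1
    obtain ⟨m, hm⟩ := Nat.minFac_dvd n
    have hm0 : 0 < m := by
      rcases Nat.eq_zero_or_pos m with h | h
      · rw [h] at hm; omega
      · exact h
    have hmn : m < n := by
      rw [hm]
      have := hp.two_le
      nlinarith
    obtain ⟨y, hy⟩ := div_prime htor hX hmax hp a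
    obtain ⟨z, hz⟩ := ih m hmn hm0 y
    refine ⟨z, ?_⟩
    have : a - n • z = (a - n.minFac • y) + n.minFac • (y - m • z) := by
      rw [smul_sub, smul_smul, ← hm]; abel
    rw [this]
    exact AddSubgroup.add_mem _ hy (AddSubgroup.nsmul_mem _ hz _)

/-- evaluation on the external direct sum -/
noncomputable def Phi (X : Set A) [DecidableEq X] :
    (Π₀ x : X, AddSubgroup.zmultiples (x : A)) →+ A :=
  DFinsupp.liftAddHom (fun x => (AddSubgroup.zmultiples (x : A)).subtype)

theorem Phi_range (X : Set A) [DecidableEq X] : (Phi X).range = AddSubgroup.closure X := by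
  apply le_antisymm
  · rintro _ ⟨v, rfl⟩
    unfold Phi
    rw [DFinsupp.liftAddHom_apply]
    refine dfinsuppSumAddHom_mem _ _ _ ?_
    intro x _
    have h1 : AddSubgroup.zmultiples (x : A) ≤ AddSubgroup.closure X := by
      rw [AddSubgroup.zmultiples_le]
      exact AddSubgroup.subset_closure x.2
    exact h1 (v x).2
  · rw [AddSubgroup.closure_le]
    intro x hx
    refine ⟨DFinsupp.single ⟨x, hx⟩ ⟨x, AddSubgroup.mem_zmultiples x⟩, ?_⟩
    unfold Phi
    rw [DFinsupp.liftAddHom_apply_single]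
    rfl

theorem Phi_injective {X : Set A} [DecidableEq X] (hX : PI X) :
    Function.Injective (Phi X) := by
  classical
  rw [injective_iff_map_eq_zero]
  intro v hv
  have hk : ∀ x : X, ∃ k : ℤ, k • (x : A) = (v x : A) := fun x => (v x).2
  choose k hk using hk
  let f : A →₀ ℤ := ∑ x ∈ v.support, Finsupp.single (x : A) (k x)
  have hf : (↑f.support : Set A) ⊆ X := by
    intro y hy
    have h1 := Finsupp.support_finsetSum hy
    simp only [Finset.mem_biUnion] at h1
    obtain ⟨x, _, hx⟩ := h1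
    have := Finsupp.support_single_subset hx
    simp only [Finset.mem_singleton] at this
    rw [this]; exact x.2
  have hfv : ∀ x ∈ v.support, f (x : A) = k x := by
    intro x hx
    simp only [f]
    rw [Finsupp.finsetSum_apply, Finset.sum_eq_single x]
    · simp
    · intro y _ hyx
      rw [Finsupp.single_apply, if_neg]
      intro h; exact hyx (Subtype.ext h)
    · intro h; exact absurd hx h
  have hev : ev f = 0 := by
    have h2 : ev f = Phi X v := by
      simp only [f]
      rw [map_sum]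
      unfold Phi
      rw [DFinsupp.liftAddHom_apply, DFinsupp.sumAddHom_apply, DFinsupp.sum]
      refine Finset.sum_congr rfl ?_
      intro x _
      rw [ev_single, hk x]; rfl
    rw [h2, hv]
  ext x
  by_cases hx : x ∈ v.support
  · obtain ⟨m, hm⟩ := hX f hf 0 0 (by rw [hev]; simp) (x : A)
    rw [hfv x hx, hk x] at hm
    simp only [Nat.cast_zero, zero_mul, zero_smul] at hm
    rw [hm]; rfl
  · rw [DFinsupp.notMem_support_iff.1 hx]; rfl

end Pool.Agent.Helper453.Basic
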