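import Mathlib

set_option autoImplicit false

namespace Pool.Agent.Helper453.Clo

open Cardinal

variable {α : Type} (w : Finset α → Set α)

/-- closed sets for a finitary closure system -/
def Closed (S : Set α) : Prop := ∀ F : Finset α, (↑F : Set α) ⊆ S → w F ⊆ S

/-- the closure of a set -/
def cl (A : Set α) : Set α := ⋂₀ {S | A ⊆ S ∧ Closed w S}

variable {w}

theorem subset_cl (A : Set α) : A ⊆ cl w A := by
  intro a ha
  simp only [cl, Set.mem_sInter, Set.mem_ofPred_eq]
  intro S hS
  exact hS.1 ha

theorem closed_cl (A : Set α) : Closed w (cl w A) := by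
  intro F hF x hx
  simp only [cl, Set.mem_sInter, Set.mem_ofPred_eq]
  intro S hS
  refine hS.2 F ?_ hx
  intro y hy
  have := hF hy
  simp only [cl, Set.mem_sInter, Set.mem_ofPred_eq] at this
  exact this S hS

theorem cl_min {A S : Set α} (h : A ⊆ S) (hS : Closed w S) : cl w A ⊆ S := by
  intro x hx
  simp only [cl, Set.mem_sInter, Set.mem_ofPred_eq] at hx
  exact hx S ⟨h, hS⟩

theorem cl_mono {A B : Set α} (h : A ⊆ B) : cl w A ⊆ cl w B :=
  cl_min (h.trans (subset_cl B)) (closed_cl B)

/-- a directed union of closed sets is closed -/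
theorem closed_iUnion {ι : Type} [Nonempty ι] (C : ι → Set α) (hC : ∀ i, Closed w (C i))
    (hd : Directed (· ⊆ ·) C) : Closed w (⋃ i, C i) := by
  intro F hF
  have : ∃ i, (↑F : Set α) ⊆ C i := by
    classical
    induction F using Finset.induction_on with
    | empty => exact ⟨Classical.arbitrary ι, by simp⟩
    | insert a F ha ih =>
      obtain ⟨i, hi⟩ := ih (fun x hx => hF (by simp at hx ⊢; exact Or.inr hx))
      have ha' : a ∈ ⋃ i, C i := hF (by simp)
      obtain ⟨j, hj⟩ := Set.mem_iUnion.1 ha'
      obtain ⟨k, hik, hjk⟩ := hd i j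
      refine ⟨k, ?_⟩
      intro x hx
      simp only [Finset.coe_insert, Set.mem_insert_iff] at hx
      rcases hx with rfl | hx
      · exact hjk hj
      · exact hik (hi hx)
  obtain ⟨i, hi⟩ := this
  exact (hC i F hi).trans (Set.subset_iUnion C i)

/-- one closing step -/
def step (w : Finset α → Set α) (A : Set α) : Set α :=
  A ∪ ⋃ F : {F : Finset α // (↑F : Set α) ⊆ A}, w F.1

theorem mk_step_le (hw : ∀ F, (w F).Countable) (A : Set α) : #(step w A) ≤ max #A ℵ₀ := by
  unfold step
  refine (mk_union_le _ _).trans ?_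
  have h1 : #{F : Finset α // (↑F : Set α) ⊆ A} ≤ max #A ℵ₀ := by
    have hinj : #{F : Finset α // (↑F : Set α) ⊆ A} ≤ #(Finset A) := by
      classical
      refine mk_le_of_injective (f := fun F => (F.1.subtype (· ∈ A))) ?_
      intro F G hFG
      have h2 : (F.1.subtype (· ∈ A)).map (Function.Embedding.subtype _)
          = (G.1.subtype (· ∈ A)).map (Function.Embedding.subtype _) := by
        have : F.1.subtype (· ∈ A) = G.1.subtype (· ∈ A) := hFG
        rw [this]
      rw [Finset.subtype_map_of_mem (fun x hx => F.2 hx),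
        Finset.subtype_map_of_mem (fun x hx => G.2 hx)] at h2
      exact Subtype.ext h2
    refine hinj.trans ?_
    rcases finite_or_infinite A with hA | hA
    · exact le_max_of_le_right (mk_le_aleph0)
    · rw [mk_finset_of_infinite]
      exact le_max_left _ _
  have h2 : #(⋃ F : {F : Finset α // (↑F : Set α) ⊆ A}, w F.1) ≤ max #A ℵ₀ := by
    refine (mk_iUnion_le _).trans ?_
    have h3 : (⨆ F : {F : Finset α // (↑F : Set α) ⊆ A}, #(w F.1)) ≤ ℵ₀ := by
      refine ciSup_le' ?_
      intro F
      exact (hw F.1).le_aleph0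
    calc #{F : Finset α // (↑F : Set α) ⊆ A} *
          (⨆ F : {F : Finset α // (↑F : Set α) ⊆ A}, #(w F.1)) ≤ max #A ℵ₀ * max #A ℵ₀ :=
          mul_le_mul' h1 (h3.trans (le_max_right _ _))
      _ = max #A ℵ₀ := mul_eq_self (le_max_right _ _)
  calc #A + #(⋃ F : {F : Finset α // (↑F : Set α) ⊆ A}, w F.1)
      ≤ max #A ℵ₀ + max #A ℵ₀ := add_le_add (le_max_left _ _) h2
    _ = max #A ℵ₀ := add_eq_self (le_max_right _ _)

theorem mk_cl_le (hw : ∀ F, (w F).Countable) (A : Set α) : #(cl w A) ≤ max #A ℵ₀ := by
  let B : ℕ → Set α := fun n => (step w)^[n] A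
  have hB0 : B 0 = A := rfl
  have hBs : ∀ n, B (n+1) = step w (B n) := by
    intro n
    simp only [B, Function.iterate_succ', Function.comp]
  have hmono : Monotone B := by
    refine monotone_nat_of_le_succ ?_
    intro n
    rw [hBs]
    exact Set.subset_union_left
  have hcard : ∀ n, #(B n) ≤ max #A ℵ₀ := by
    intro n
    induction n with
    | zero => rw [hB0]; exact le_max_left _ _
    | succ n ih =>
      rw [hBs]
      refine (mk_step_le hw _).trans ?_
      exact max_le ih (le_max_right _ _)
  have hclosed : Closed w (⋃ n, B n) := by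
    intro F hF
    have : ∃ n, (↑F : Set α) ⊆ B n := by
      have hd : Directed (· ⊆ ·) B := hmono.directed_le
      clear hcard
      classical
      induction F using Finset.induction_on with
      | empty => exact ⟨0, by simp⟩
      | insert a F ha ih =>
        obtain ⟨i, hi⟩ := ih (fun x hx => hF (by simp at hx ⊢; exact Or.inr hx))
        have ha' : a ∈ ⋃ i, B i := hF (by simp)
        obtain ⟨j, hj⟩ := Set.mem_iUnion.1 ha'
        obtain ⟨k, hik, hjk⟩ := hd i j
        refine ⟨k, ?_⟩
        intro x hx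
        simp only [Finset.coe_insert, Set.mem_insert_iff] at hx
        rcases hx with rfl | hx
        · exact hjk hj
        · exact hik (hi hx)
    obtain ⟨n, hn⟩ := this
    intro x hx
    refine Set.mem_iUnion.2 ⟨n+1, ?_⟩
    rw [hBs]
    right
    exact Set.mem_iUnion.2 ⟨⟨F, hn⟩, hx⟩
  have hsub : cl w A ⊆ ⋃ n, B n := by
    refine cl_min ?_ hclosed
    rw [← hB0]
    exact Set.subset_iUnion B 0
  refine (mk_le_mk_of_subset hsub).trans ?_
  refine (mk_iUnion_le _).trans ?_
  calc #ℕ * ⨆ n, #(B n) ≤ max #A ℵ₀ * max #A ℵ₀ := by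
        refine mul_le_mul' ?_ ?_
        · rw [mk_nat]; exact le_max_right _ _
        · exact ciSup_le' hcard
    _ = max #A ℵ₀ := mul_eq_self (le_max_right _ _)

end Pool.Agent.Helper453.Clo
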