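import Mathlib

set_option autoImplicit false

namespace Pool.Agent.Helper453.Sep

open scoped commutatorElement

/-- a group which is central-by-finite has finite derived subgroup -/
theorem finite_commutator {H : Type} [Group H] (N : Subgroup H) (hN : N ≤ Subgroup.center H)
    [hfi : N.FiniteIndex] : Finite (commutator H) := by
  have hfi3 : (Subgroup.center H).FiniteIndex := Subgroup.finiteIndex_of_le hN
  have : Finite (commutatorSet H) := by
    have hq : Finite (H ⧸ Subgroup.center H) :=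
      Subgroup.finite_quotient_of_finiteIndex
    have hsub : commutatorSet H ⊆
        Set.range (fun p : (H ⧸ Subgroup.center H) ×
          (H ⧸ Subgroup.center H) => ⁅p.1.out, p.2.out⁆) := by
      rintro _ ⟨a, b, rfl⟩
      refine ⟨(QuotientGroup.mk a, QuotientGroup.mk b), ?_⟩
      obtain ⟨⟨z, hz⟩, hz'⟩ := QuotientGroup.mk_out_eq_mul (Subgroup.center H) a
      obtain ⟨⟨y, hy⟩, hy'⟩ := QuotientGroup.mk_out_eq_mul (Subgroup.center H) b
      simp only
      rw [hz', hy']
      simp only [commutatorElement_def]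
      rw [Subgroup.mem_center_iff] at hz hy
      have e1 : a * z * (b * y) * (a * z)⁻¹ * (b * y)⁻¹ = a * b * a⁻¹ * b⁻¹ := by
        have h1 : a * z * (b * y) = a * b * (z * y) := by
          rw [mul_assoc, mul_assoc, ← mul_assoc z b y, ← hz b]; group
        rw [h1]
        have h2 : (a * z)⁻¹ = a⁻¹ * z⁻¹ := by
          rw [hz a]; group
        have h3 : (b * y)⁻¹ = b⁻¹ * y⁻¹ := by
          rw [hy b]; group
        rw [h2, h3]
        have h4 : z * y * (a⁻¹ * z⁻¹) = a⁻¹ * y := by
          rw [← hz]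
          have : y * z * (a⁻¹ * z⁻¹) = y * (z * a⁻¹) * z⁻¹ := by group
          rw [this, ← hz a⁻¹]
          have : y * (a⁻¹ * z) * z⁻¹ = y * a⁻¹ := by group
          rw [this, hy a⁻¹]
        have h5 : a * b * (z * y) * (a⁻¹ * z⁻¹) * (b⁻¹ * y⁻¹)
            = a * b * (z * y * (a⁻¹ * z⁻¹)) * (b⁻¹ * y⁻¹) := by group
        rw [h5, h4]
        have h6 : a * b * (a⁻¹ * y) * (b⁻¹ * y⁻¹) = a * b * a⁻¹ * (y * b⁻¹) * y⁻¹ := by group
        rw [h6, ← hy b⁻¹]
        group
      exact e1
    exact Set.Finite.subset (Set.finite_range _) hsub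
  infer_instance

theorem normal_of_le_center {H : Type} [Group H] {N : Subgroup H}
    (hN : N ≤ Subgroup.center H) : N.Normal := by
  refine ⟨fun n hn g => ?_⟩
  have := (Subgroup.mem_center_iff.1 (hN hn)) g
  rw [this]; simpa using hn

/-- one element version -/
theorem sep1 {H : Type} [Group H] (N : Subgroup H) (hN : N ≤ Subgroup.center H)
    [hfi : N.FiniteIndex] {q : ℕ} (hq : 0 < q) {x : H} (hx : x ∈ N)
    (hxq : ∀ d ∈ N, d ^ q ≠ x) : ∃ L : Subgroup H, L.Normal ∧ L.FiniteIndex ∧ x ∉ L := by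
  let _ : CommGroup N := { (inferInstance : Group N) with
    mul_comm := fun a b => Subtype.ext ((Subgroup.mem_center_iff.1 (hN b.2)) a.1) }
  let Q : Subgroup N := (powMonoidHom q : N →* N).range
  let x' : N := ⟨x, hx⟩
  have hxQ : x' ∉ Q := by
    rintro ⟨d, hd⟩
    refine hxq d.1 d.2 ?_
    have := congrArg Subtype.val hd
    simpa using this
  let a : Additive (N ⧸ Q) := Additive.ofMul (QuotientGroup.mk x')
  have ha : a ≠ 0 := by
    intro h
    apply hxQ
    exact (QuotientGroup.eq_one_iff x').1 h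
  obtain ⟨c, hc⟩ := CharacterModule.exists_character_apply_ne_zero_of_ne_zero ha
  let c' : Additive (N ⧸ Q) →+ AddCircle (1 : ℚ) := c
  let f : N →* Multiplicative (AddCircle (1 : ℚ)) :=
    (AddMonoidHom.toMultiplicativeRight c').comp (QuotientGroup.mk' Q)
  have hf : ∀ d : N, (f d) = Multiplicative.ofAdd (c (Additive.ofMul (QuotientGroup.mk d))) :=
    fun d => rfl
  have hfin : Finite f.range := by
    have h1 : {u : AddCircle (1 : ℚ) | q • u = 0}.Finite := AddCircle.finite_torsion 1 hq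
    have h2 : (f.range : Set (Multiplicative (AddCircle (1 : ℚ)))) ⊆
        Multiplicative.ofAdd '' {u : AddCircle (1 : ℚ) | q • u = 0} := by
      rintro _ ⟨d, rfl⟩
      refine ⟨c (Additive.ofMul (QuotientGroup.mk d)), ?_, (hf d).symm⟩
      simp only [Set.mem_ofPred_eq]
      rw [← map_nsmul]
      have : q • (Additive.ofMul (QuotientGroup.mk d) : Additive (N ⧸ Q)) = 0 := by
        rw [← ofMul_pow, ← QuotientGroup.mk_pow]
        have : (QuotientGroup.mk (d ^ q) : N ⧸ Q) = 1 :=
          (QuotientGroup.eq_one_iff _).2 ⟨d, rfl⟩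
        rw [this]; rfl
      rw [this, map_zero]
    exact (Set.Finite.subset (h1.image _) h2)
  have hker : f.ker.FiniteIndex := Subgroup.finiteIndex_ker f
  refine ⟨f.ker.map N.subtype, ?_, ?_, ?_⟩
  · apply normal_of_le_center
    refine le_trans ?_ hN
    rintro _ ⟨y, _, rfl⟩
    exact y.2
  · refine ⟨?_⟩
    rw [Subgroup.index_map_subtype]
    exact mul_ne_zero hker.index_ne_zero hfi.index_ne_zero
  · rintro ⟨y, hy, hyx⟩
    have : y = x' := Subtype.ext hyx
    subst this
    have h1 := MonoidHom.mem_ker.1 hy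
    rw [hf] at h1
    exact hc h1

theorem sep0 {H : Type} [Group H] (N : Subgroup H) (hN : N ≤ Subgroup.center H)
    [hfi : N.FiniteIndex] {q : ℕ} (hq : 0 < q)
    (h : ∀ d ∈ N, d ^ q ∈ commutator H → d ^ q = 1) :
    ∃ L : Subgroup H, L.Normal ∧ L.FiniteIndex ∧ ∀ x ∈ commutator H, x ∈ L → x = 1 := by
  classical
  have hfc := finite_commutator N hN
  have key : ∀ x : {x : commutator H // x ≠ 1}, ∃ L : Subgroup H, L.Normal ∧ L.FiniteIndex ∧
      x.1.1 ∉ L := by
    rintro ⟨⟨x, hx⟩, hx1⟩
    by_cases hxN : x ∈ N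
    · refine sep1 N hN hq hxN ?_
      intro d hd hdx
      have := h d hd (hdx ▸ hx)
      apply hx1
      apply Subtype.ext
      exact hdx.symm.trans this
    · exact ⟨N, normal_of_le_center hN, hfi, hxN⟩
  choose L hL1 hL2 hL3 using key
  refine ⟨⨅ x, L x, Subgroup.normal_iInf_normal hL1, Subgroup.finiteIndex_iInf hL2, ?_⟩
  intro x hx hxL
  by_contra hx1
  have h1 := (Subgroup.mem_iInf.1 hxL) ⟨⟨x, hx⟩, fun h => hx1 (congrArg Subtype.val h)⟩
  exact hL3 _ h1

/-- general version: find a finite index normal subgroup with prescribed trace on `G'` -/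
theorem sep {G : Type} [Group G] (Y N : Subgroup G) [hY : Y.Normal]
    [hfi : N.FiniteIndex] (hYc : Y ≤ commutator G) (hNY : ∀ n ∈ N, ∀ g : G, ⁅n, g⁆ ∈ Y)
    {q : ℕ} (hq : 0 < q) (h : ∀ d ∈ N, d ^ q ∈ commutator G → d ^ q ∈ Y) :
    ∃ L : Subgroup G, L.Normal ∧ L.FiniteIndex ∧ ∀ x ∈ commutator G, (x ∈ L ↔ x ∈ Y) := by
  have hcen : N.map (QuotientGroup.mk' Y) ≤ Subgroup.center (G ⧸ Y) := by
    rintro _ ⟨n, hn, rfl⟩
    rw [Subgroup.mem_center_iff]
    intro g
    obtain ⟨g, rfl⟩ := QuotientGroup.mk_surjective g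
    have h2 : (QuotientGroup.mk' Y) ⁅n, g⁆ = 1 := by
      rw [QuotientGroup.mk'_apply, QuotientGroup.eq_one_iff]; exact hNY n hn g
    rw [map_commutatorElement, commutatorElement_eq_one_iff_mul_comm] at h2
    exact h2.symm
  have hfi2 : (N.map (QuotientGroup.mk' Y)).FiniteIndex := by
    refine ⟨?_⟩
    have := Subgroup.index_map_dvd N (f := QuotientGroup.mk' Y)
      (QuotientGroup.mk'_surjective _)
    exact fun h => hfi.index_ne_zero (by rw [h] at this; exact Nat.eq_zero_of_zero_dvd this)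
  have hcomm : ∀ x : G, (QuotientGroup.mk' Y) x ∈ commutator (G ⧸ Y) ↔ x ∈ commutator G := by
    intro x
    have hmap : (commutator G).map (QuotientGroup.mk' Y) = commutator (G ⧸ Y) := by
      rw [commutator_def, Subgroup.map_commutator, commutator_def]
      rw [Subgroup.map_top_of_surjective _ (QuotientGroup.mk'_surjective Y)]
    rw [← hmap]
    constructor
    · rintro ⟨c, hc, hcx⟩
      have h1 : c⁻¹ * x ∈ Y := QuotientGroup.eq.1 hcx
      have h2 : x = c * (c⁻¹ * x) := by group
      rw [h2]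
      exact Subgroup.mul_mem _ hc (hYc h1)
    · intro hx
      exact Subgroup.mem_map_of_mem _ hx
  obtain ⟨L, hL1, hL2, hL3⟩ := sep0 (N.map (QuotientGroup.mk' Y)) hcen hq (by
    rintro _ ⟨d, hd, rfl⟩ hdc
    rw [← map_pow] at hdc ⊢
    rw [hcomm] at hdc
    rw [QuotientGroup.mk'_apply, QuotientGroup.eq_one_iff]
    exact h d hd hdc)
  refine ⟨L.comap (QuotientGroup.mk' Y), inferInstance, ?_, ?_⟩
  · refine ⟨?_⟩
    rw [Subgroup.index_comap_of_surjective _ (QuotientGroup.mk'_surjective Y)]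
    exact hL2.index_ne_zero
  · intro x hx
    rw [Subgroup.mem_comap]
    constructor
    · intro hxL
      have := hL3 _ ((hcomm x).2 hx) hxL
      rwa [QuotientGroup.mk'_apply, QuotientGroup.eq_one_iff] at this
    · intro hxY
      have : (QuotientGroup.mk' Y) x = 1 := by
        rw [QuotientGroup.mk'_apply, QuotientGroup.eq_one_iff]; exact hxY
      rw [this]; exact L.one_mem

end Pool.Agent.Helper453.Sep
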