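import Mathlib
import Pool.Agent.Helper453.Clo
import Pool.Agent.Helper453.Sep

set_option autoImplicit false

namespace Pool.Agent.Helper453.Gorch

open Pool.Agent.Helper453.Clo
open scoped commutatorElement

variable {G : Type} [Group G]

/-- a system of finite index normal subgroups attached to the finite subsets of `G` -/
structure Sys (G : Type) [Group G] where
  N : Finset G → Subgroup G
  nor : ∀ F, (N F).Normal
  fi : ∀ F, (N F).FiniteIndex
  anti : ∀ F F' : Finset G, F ⊆ F' → N F' ≤ N F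
  disj : ∀ F : Finset G, ∀ x, x ∈ N F → x ∈ Subgroup.normalClosure (F : Set G) → x = 1
  finR : ∀ F : Finset G, (Subgroup.normalClosure (F : Set G) : Set G).Finite

theorem comm_mul_right (a b c : G) : ⁅a, b * c⁆ = ⁅a, b⁆ * (b * ⁅a, c⁆ * b⁻¹) := by
  simp only [commutatorElement_def]; group

theorem comm_mul_left (a b c : G) : ⁅a * b, c⁆ = a * ⁅b, c⁆ * a⁻¹ * ⁅a, c⁆ := by
  simp only [commutatorElement_def]; group

namespace Sys

variable (σ : Sys G)

/-- the commutator subgroup of `N F` with `G` -/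
def P (F : Finset G) : Subgroup G := ⁅σ.N F, (⊤ : Subgroup G)⁆

theorem P_normal (F : Finset G) : (σ.P F).Normal := by
  have := σ.nor F
  unfold P
  infer_instance

instance instPN (F : Finset G) : (σ.P F).Normal := σ.P_normal F

theorem P_le (F : Finset G) : σ.P F ≤ commutator G := by
  unfold P
  rw [commutator_def]
  exact Subgroup.commutator_mono le_top le_rfl

theorem mem_P {F : Finset G} {n g : G} (hn : n ∈ σ.N F) : ⁅n, g⁆ ∈ σ.P F :=
  Subgroup.commutator_mem_commutator hn (Subgroup.mem_top g)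

theorem finite_comm_quot (F : Finset G) : Finite (commutator (G ⧸ σ.P F)) := by
  have hN := σ.nor F
  have hfi := σ.fi F
  have hcen : (σ.N F).map (QuotientGroup.mk' (σ.P F)) ≤ Subgroup.center (G ⧸ σ.P F) := by
    rintro _ ⟨n, hn, rfl⟩
    rw [Subgroup.mem_center_iff]
    intro g
    obtain ⟨g, rfl⟩ := QuotientGroup.mk_surjective g
    have : ⁅n, g⁆ ∈ σ.P F := σ.mem_P hn
    have h2 : (QuotientGroup.mk' (σ.P F)) ⁅n, g⁆ = 1 := by
      rw [QuotientGroup.mk'_apply, QuotientGroup.eq_one_iff]; exact this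
    rw [map_commutatorElement, commutatorElement_eq_one_iff_mul_comm] at h2
    exact h2.symm
  have hfi2 : ((σ.N F).map (QuotientGroup.mk' (σ.P F))).FiniteIndex := by
    refine ⟨?_⟩
    have := Subgroup.index_map_dvd (σ.N F) (f := QuotientGroup.mk' (σ.P F))
      (QuotientGroup.mk'_surjective _)
    exact fun h => hfi.index_ne_zero (by rw [h] at this; exact Nat.eq_zero_of_zero_dvd this)
  have hfi3 : (Subgroup.center (G ⧸ σ.P F)).FiniteIndex :=
    Subgroup.finiteIndex_of_le hcen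
  have : Finite (commutatorSet (G ⧸ σ.P F)) := by
    have hq : Finite ((G ⧸ σ.P F) ⧸ Subgroup.center (G ⧸ σ.P F)) :=
      Subgroup.finite_quotient_of_finiteIndex
    have hsub : commutatorSet (G ⧸ σ.P F) ⊆
        Set.range (fun p : ((G ⧸ σ.P F) ⧸ Subgroup.center (G ⧸ σ.P F)) ×
          ((G ⧸ σ.P F) ⧸ Subgroup.center (G ⧸ σ.P F)) => ⁅p.1.out, p.2.out⁆) := by
      rintro _ ⟨a, b, rfl⟩
      refine ⟨(QuotientGroup.mk a, QuotientGroup.mk b), ?_⟩
      obtain ⟨⟨z, hz⟩, hz'⟩ := QuotientGroup.mk_out_eq_mul (Subgroup.center (G ⧸ σ.P F)) a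
      obtain ⟨⟨y, hy⟩, hy'⟩ := QuotientGroup.mk_out_eq_mul (Subgroup.center (G ⧸ σ.P F)) b
      simp only
      rw [hz', hy']
      simp only [commutatorElement_def]
      rw [Subgroup.mem_center_iff] at hz hy
      have e1 : a * z * (b * y) * (a * z)⁻¹ * (b * y)⁻¹ = a * b * a⁻¹ * b⁻¹ := by
        have h1 : a * z * (b * y) = a * b * (z * y) := by
          rw [mul_assoc, mul_assoc, ← mul_assoc z b y, ← hz b]; group
        rw [h1]
        have h2 : (a * z)⁻¹ = a⁻¹ * z⁻¹ := by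
          rw [hz a]; group
        have h3 : (b * y)⁻¹ = b⁻¹ * y⁻¹ := by
          rw [hy b]; group
        rw [h2, h3]
        have h4 : z * y * (a⁻¹ * z⁻¹) = a⁻¹ * y := by
          rw [← hz]
          have : y * z * (a⁻¹ * z⁻¹) = y * (z * a⁻¹) * z⁻¹ := by group
          rw [this, ← hz a⁻¹]
          have : y * (a⁻¹ * z) * z⁻¹ = y * a⁻¹ := by group
          rw [this, hy a⁻¹]
        have h5 : a * b * (z * y) * (a⁻¹ * z⁻¹) * (b⁻¹ * y⁻¹)
            = a * b * (z * y * (a⁻¹ * z⁻¹)) * (b⁻¹ * y⁻¹) := by group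
        rw [h5, h4]
        have h6 : a * b * (a⁻¹ * y) * (b⁻¹ * y⁻¹) = a * b * a⁻¹ * (y * b⁻¹) * y⁻¹ := by group
        rw [h6, ← hy b⁻¹]
        group
      exact e1
    exact Set.Finite.subset (Set.finite_range _) hsub
  infer_instance

open Classical in
/-- a chosen element of `N F` whose `q`-th power lies in a given class -/
noncomputable def dch (F : Finset G) (x : G ⧸ σ.P F) (q : ℕ) : G :=
  if h : ∃ d ∈ σ.N F, (QuotientGroup.mk (d ^ q) : G ⧸ σ.P F) = x then h.choose else 1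

/-- the closure rule -/
def w (F : Finset G) : Set G :=
  (Subgroup.normalClosure (F : Set G) : Set G) ∪
  Set.range (fun q : G ⧸ σ.N F => q.out) ∪
  (⋃ x ∈ (commutator (G ⧸ σ.P F) : Set (G ⧸ σ.P F)), Set.range (σ.dch F x))

theorem w_countable (F : Finset G) : (σ.w F).Countable := by
  have hfi := σ.fi F
  have hq : Finite (G ⧸ σ.N F) := Subgroup.finite_quotient_of_finiteIndex
  have hc := σ.finite_comm_quot F
  refine Set.Countable.union (Set.Countable.union (σ.finR F).countable (Set.countable_range _)) ?_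
  refine Set.Countable.biUnion ?_ (fun x _ => Set.countable_range _)
  exact Set.Finite.countable (Set.toFinite _)


/-- intersection of all the subgroups attached to the finite subsets of `S` -/
def K (S : Set G) : Subgroup G := ⨅ F : {F : Finset G // (↑F : Set G) ⊆ S}, σ.N F.1

theorem mem_K {S : Set G} {x : G} :
    x ∈ σ.K S ↔ ∀ F : Finset G, (↑F : Set G) ⊆ S → x ∈ σ.N F := by
  unfold K
  rw [Subgroup.mem_iInf]
  constructor
  · intro h F hF; exact h ⟨F, hF⟩
  · rintro h ⟨F, hF⟩; exact h F hF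

theorem K_normal (S : Set G) : (σ.K S).Normal := by
  unfold K
  exact Subgroup.normal_iInf_normal (fun F => σ.nor F.1)

theorem K_anti {S S' : Set G} (h : S ⊆ S') : σ.K S' ≤ σ.K S := by
  intro x hx
  rw [mem_K] at hx ⊢
  intro F hF
  exact hx F (hF.trans h)

variable {σ} {S : Set G} (hS : Closed σ.w S)

include hS

theorem nc_sub {F : Finset G} (hF : (↑F : Set G) ⊆ S) :
    (Subgroup.normalClosure (F : Set G) : Set G) ⊆ S := by
  refine subset_trans ?_ (hS F hF)
  unfold w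
  intro x hx
  left; left; exact hx

theorem one_mem : (1 : G) ∈ S :=
  nc_sub hS (F := ∅) (by simp) (Subgroup.one_mem _)

theorem mul_mem {a b : G} (ha : a ∈ S) (hb : b ∈ S) : a * b ∈ S := by
  classical
  have h : (↑({a, b} : Finset G) : Set G) ⊆ S := by
    intro x hx; simp at hx; rcases hx with rfl | rfl <;> assumption
  refine nc_sub hS h ?_
  refine Subgroup.mul_mem _ ?_ ?_
  · exact Subgroup.subset_normalClosure (by simp)
  · exact Subgroup.subset_normalClosure (by simp)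

theorem inv_mem {a : G} (ha : a ∈ S) : a⁻¹ ∈ S := by
  have h : (↑({a} : Finset G) : Set G) ⊆ S := by
    intro x hx; simp at hx; rcases hx with rfl; assumption
  refine nc_sub hS h ?_
  refine Subgroup.inv_mem _ ?_
  exact Subgroup.subset_normalClosure (by simp)

theorem conj_mem {a : G} (ha : a ∈ S) (g : G) : g * a * g⁻¹ ∈ S := by
  have h : (↑({a} : Finset G) : Set G) ⊆ S := by
    intro x hx; simp at hx; rcases hx with rfl; assumption
  refine nc_sub hS h ?_
  refine Subgroup.normalClosure_normal.conj_mem _ ?_ g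
  exact Subgroup.subset_normalClosure (by simp)

theorem exists_rep {F : Finset G} (hF : (↑F : Set G) ⊆ S) (g : G) :
    ∃ s ∈ S, ∃ n ∈ σ.N F, g = s * n := by
  refine ⟨(QuotientGroup.mk g : G ⧸ σ.N F).out, ?_, ?_⟩
  · refine hS F hF ?_
    left; right; exact ⟨_, rfl⟩
  · have h : (QuotientGroup.mk ((QuotientGroup.mk g : G ⧸ σ.N F).out) : G ⧸ σ.N F)
        = QuotientGroup.mk g := QuotientGroup.out_eq' _
    refine ⟨((QuotientGroup.mk g : G ⧸ σ.N F).out)⁻¹ * g, QuotientGroup.eq.1 h, by group⟩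

theorem exists_pow {F : Finset G} (hF : (↑F : Set G) ⊆ S) {d : G} (hd : d ∈ σ.N F) {q : ℕ}
    (hq : d ^ q ∈ commutator G) :
    ∃ d' ∈ S, d' ∈ σ.N F ∧ (d' ^ q)⁻¹ * d ^ q ∈ σ.P F := by
  have hx : (QuotientGroup.mk (d ^ q) : G ⧸ σ.P F) ∈ commutator (G ⧸ σ.P F) := by
    have h1 := Subgroup.mem_map_of_mem (QuotientGroup.mk' (σ.P F)) hq
    rw [commutator_def, Subgroup.map_commutator] at h1
    exact Subgroup.commutator_mono le_top le_top h1
  have hex : ∃ e ∈ σ.N F, (QuotientGroup.mk (e ^ q) : G ⧸ σ.P F) = QuotientGroup.mk (d ^ q) :=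
    ⟨d, hd, rfl⟩
  refine ⟨σ.dch F (QuotientGroup.mk (d ^ q)) q, ?_, ?_, ?_⟩
  · refine hS F hF ?_
    right
    simp only [Set.mem_iUnion]
    exact ⟨_, hx, ⟨q, rfl⟩⟩
  · unfold dch
    rw [dif_pos hex]
    exact hex.choose_spec.1
  · have : (QuotientGroup.mk ((σ.dch F (QuotientGroup.mk (d ^ q)) q) ^ q) : G ⧸ σ.P F)
        = QuotientGroup.mk (d ^ q) := by
      unfold dch
      rw [dif_pos hex]
      exact hex.choose_spec.2
    exact QuotientGroup.eq.1 this

/-- the normal subgroup with carrier `S` -/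
def sg : Subgroup G where
  carrier := S
  mul_mem' := fun ha hb => mul_mem hS ha hb
  one_mem' := one_mem hS
  inv_mem' := fun ha => inv_mem hS ha

theorem mem_sg {x : G} : x ∈ sg hS ↔ x ∈ S := Iff.rfl

theorem sg_normal : (sg hS).Normal := ⟨fun _ ha g => conj_mem hS ha g⟩

omit hS in
theorem eq_one_of_mem {x : G} (hx : x ∈ S) (hk : x ∈ σ.K S) : x = 1 := by
  have h : (↑({x} : Finset G) : Set G) ⊆ S := by
    intro y hy; simp at hy; rcases hy with rfl; assumption
  exact σ.disj {x} x ((σ.mem_K).1 hk {x} h) (Subgroup.subset_normalClosure (by simp))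

omit hS in
/-- elements of `N F` commute with the normal closure of `F` -/
theorem comm_of_mem {F : Finset G} {x n : G} (hx : x ∈ Subgroup.normalClosure (F : Set G))
    (hn : n ∈ σ.N F) : x * n = n * x := by
  have hN := σ.nor F
  have h : ⁅x, n⁆ = 1 := by
    apply σ.disj F
    · rw [commutatorElement_def]
      exact (σ.N F).mul_mem (hN.conj_mem n hn x) ((σ.N F).inv_mem hn)
    · rw [commutatorElement_def]
      have : x * n * x⁻¹ * n⁻¹ = x * (n * x⁻¹ * n⁻¹) := by group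
      rw [this]
      exact Subgroup.mul_mem _ hx (Subgroup.normalClosure_normal.conj_mem _
        (Subgroup.inv_mem _ hx) n)
  exact commutatorElement_eq_one_iff_mul_comm.1 h

omit hS in
theorem comm_K {x k : G} (hx : x ∈ S) (hk : k ∈ σ.K S) : x * k = k * x := by
  have h : (↑({x} : Finset G) : Set G) ⊆ S := by
    intro y hy; simp at hy; rcases hy with rfl; assumption
  exact comm_of_mem (Subgroup.subset_normalClosure (by simp)) ((σ.mem_K).1 hk {x} h)

/-- for each `u` there is a finite `F ⊆ S` such that `u` commutes with `N F ∩ S` and with `N F`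
modulo `K S` -/
theorem key1 (u : G) : ∃ F : Finset G, (↑F : Set G) ⊆ S ∧ ∀ n ∈ σ.N F, ⁅u, n⁆ ∈ σ.K S := by
  classical
  have hfin := σ.finR {u}
  let F₀ : Finset G := hfin.toFinset.filter (· ∈ S)
  have hF₀ : (↑F₀ : Set G) ⊆ S := by
    intro x hx
    simp only [F₀, Finset.coe_filter, Set.mem_ofPred_eq] at hx
    exact hx.2
  have hu : u ∈ Subgroup.normalClosure (({u} : Finset G) : Set G) :=
    Subgroup.subset_normalClosure (by simp)
  have hcomm : ∀ g ∈ σ.N F₀, g ∈ S → ⁅u, g⁆ = 1 := by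
    intro g hg hgS
    have hN := σ.nor F₀
    have h1 : ⁅u, g⁆ ∈ σ.N F₀ := by
      rw [commutatorElement_def]
      exact (σ.N F₀).mul_mem (hN.conj_mem g hg u) ((σ.N F₀).inv_mem hg)
    have h2 : ⁅u, g⁆ ∈ Subgroup.normalClosure (({u} : Finset G) : Set G) := by
      rw [commutatorElement_def]
      have : u * g * u⁻¹ * g⁻¹ = u * (g * u⁻¹ * g⁻¹) := by group
      rw [this]
      exact Subgroup.mul_mem _ hu (Subgroup.normalClosure_normal.conj_mem _
        (Subgroup.inv_mem _ hu) g)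
    have h3 : ⁅u, g⁆ ∈ S := by
      rw [commutatorElement_def]
      exact mul_mem hS (conj_mem hS hgS u) (inv_mem hS hgS)
    refine σ.disj F₀ _ h1 (Subgroup.subset_normalClosure ?_)
    simp only [F₀, Finset.coe_filter, Set.mem_ofPred_eq]
    exact ⟨hfin.mem_toFinset.2 h2, h3⟩
  refine ⟨F₀, hF₀, ?_⟩
  intro x hx
  rw [mem_K]
  intro F₁ hF₁
  have hF₂ : (↑(F₀ ∪ F₁) : Set G) ⊆ S := by
    intro y hy
    simp only [Finset.coe_union, Set.mem_union] at hy
    rcases hy with hy | hy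
    · exact hF₀ hy
    · exact hF₁ hy
  obtain ⟨s, hs, n, hn, rfl⟩ := exists_rep hS hF₂ x
  have hn0 : n ∈ σ.N F₀ := σ.anti F₀ _ Finset.subset_union_left hn
  have hn1 : n ∈ σ.N F₁ := σ.anti F₁ _ Finset.subset_union_right hn
  have hs0 : s ∈ σ.N F₀ := by
    have := (σ.N F₀).mul_mem hx ((σ.N F₀).inv_mem hn0)
    simpa using this
  rw [comm_mul_right, hcomm s hs0 hs, one_mul]
  have hN := σ.nor F₁
  refine hN.conj_mem _ ?_ s
  rw [commutatorElement_def]
  exact (σ.N F₁).mul_mem (hN.conj_mem n hn1 u) ((σ.N F₁).inv_mem hn1)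

theorem comm_le : commutator G ≤ sg hS ⊔ σ.K S := by
  rw [commutator_eq_closure, Subgroup.closure_le]
  rintro _ ⟨u, v, rfl⟩
  obtain ⟨F, hF, hFn⟩ := key1 hS u
  obtain ⟨s, hs, n, hn, rfl⟩ := exists_rep hS hF v
  rw [comm_mul_right]
  have hKn := σ.K_normal S
  refine Subgroup.mul_mem _ ?_ ?_
  · refine (le_sup_left : sg hS ≤ _) ?_
    rw [commutatorElement_def, mem_sg]
    exact mul_mem hS (conj_mem hS hs u) (inv_mem hS hs)
  · exact (le_sup_right : σ.K S ≤ sg hS ⊔ σ.K S) (hKn.conj_mem _ (hFn n hn) s)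

theorem exists_dec {x : G} (hx : x ∈ commutator G) : ∃ s ∈ S, s⁻¹ * x ∈ σ.K S := by
  have h := comm_le hS hx
  have := σ.K_normal S
  rw [Subgroup.mem_sup_of_normal_right] at h
  obtain ⟨s, hs, k, hk, rfl⟩ := h
  exact ⟨s, hs, by simpa using hk⟩

omit hS in
theorem dec_unique {x s t : G} (hs : s ∈ S) (ht : t ∈ S) (hst : s⁻¹ * t ∈ S)
    (hsx : s⁻¹ * x ∈ σ.K S) (htx : t⁻¹ * x ∈ σ.K S) : s = t := by
  have h : s⁻¹ * t ∈ σ.K S := by
    have := (σ.K S).mul_mem hsx ((σ.K S).inv_mem htx)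
    have e : s⁻¹ * x * (t⁻¹ * x)⁻¹ = s⁻¹ * t := by group
    rwa [e] at this
  have := eq_one_of_mem hst h
  exact (inv_mul_eq_one.1 this)

variable (σ S) in
omit hS in
open Classical in
/-- the projection of `G'` to `S` along `K S` -/
noncomputable def pr (x : G) : G :=
  if h : ∃ s ∈ S, s⁻¹ * x ∈ σ.K S then h.choose else 1

theorem pr_eq {x s : G} (hs : s ∈ S) (hx : s⁻¹ * x ∈ σ.K S) : pr σ S x = s := by
  have hex : ∃ s ∈ S, s⁻¹ * x ∈ σ.K S := ⟨s, hs, hx⟩
  unfold pr
  rw [dif_pos hex]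
  have h1 := hex.choose_spec.1
  have h2 := hex.choose_spec.2
  exact dec_unique h1 hs (mul_mem hS (inv_mem hS h1) hs) h2 hx

theorem pr_mem {x : G} (hx : x ∈ commutator G) : pr σ S x ∈ S := by
  obtain ⟨s, hs, h⟩ := exists_dec hS hx
  rw [pr_eq hS hs h]; exact hs

theorem pr_spec {x : G} (hx : x ∈ commutator G) : (pr σ S x)⁻¹ * x ∈ σ.K S := by
  obtain ⟨s, hs, h⟩ := exists_dec hS hx
  rw [pr_eq hS hs h]; exact h

theorem pr_of_mem {x : G} (hx : x ∈ S) : pr σ S x = x :=
  pr_eq hS hx (by simp [Subgroup.one_mem])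

theorem pr_one : pr σ S 1 = 1 := pr_of_mem hS (one_mem hS)

theorem pr_mul {x y : G} (hx : x ∈ commutator G) (hy : y ∈ commutator G) :
    pr σ S (x * y) = pr σ S x * pr σ S y := by
  have hK := σ.K_normal S
  refine pr_eq hS (mul_mem hS (pr_mem hS hx) (pr_mem hS hy)) ?_
  have e : (pr σ S x * pr σ S y)⁻¹ * (x * y) =
      ((pr σ S y)⁻¹ * ((pr σ S x)⁻¹ * x) * (pr σ S y)) * ((pr σ S y)⁻¹ * y) := by group
  rw [e]
  refine (σ.K S).mul_mem ?_ (pr_spec hS hy)
  have := hK.conj_mem _ (pr_spec hS hx) (pr σ S y)⁻¹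
  simpa using this

theorem pr_inv {x : G} (hx : x ∈ commutator G) : pr σ S x⁻¹ = (pr σ S x)⁻¹ := by
  have h := pr_mul hS hx ((commutator G).inv_mem hx)
  rw [mul_inv_cancel, pr_one hS] at h
  exact (inv_eq_of_mul_eq_one_right h.symm).symm

theorem pr_conj {x : G} (hx : x ∈ commutator G) (g : G) :
    pr σ S (g * x * g⁻¹) = g * pr σ S x * g⁻¹ := by
  have hK := σ.K_normal S
  refine pr_eq hS (conj_mem hS (pr_mem hS hx) g) ?_
  have e : (g * pr σ S x * g⁻¹)⁻¹ * (g * x * g⁻¹) = g * ((pr σ S x)⁻¹ * x) * g⁻¹ := by group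
  rw [e]
  exact hK.conj_mem _ (pr_spec hS hx) g

/-- the value of the projection on a commutator -/
theorem pr_comm (u v : G) : ∃ F : Finset G, (↑F : Set G) ⊆ S ∧
    ∀ s ∈ S, ∀ n ∈ σ.N F, v = s * n → pr σ S ⁅u, v⁆ = ⁅u, s⁆ := by
  obtain ⟨F, hF, hFn⟩ := key1 hS u
  refine ⟨F, hF, ?_⟩
  rintro s hs n hn rfl
  have hK := σ.K_normal S
  refine pr_eq hS ?_ ?_
  · rw [commutatorElement_def]
    exact mul_mem hS (conj_mem hS hs u) (inv_mem hS hs)
  · rw [comm_mul_right]
    have e : ⁅u, s⁆⁻¹ * (⁅u, s⁆ * (s * ⁅u, n⁆ * s⁻¹)) = s * ⁅u, n⁆ * s⁻¹ := by group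
    rw [e]
    exact hK.conj_mem _ (hFn n hn) s

theorem pr_mem_comm {x : G} (hx : x ∈ commutator G) : pr σ S x ∈ commutator G := by
  have hx0 := hx
  rw [commutator_eq_closure] at hx
  induction hx using Subgroup.closure_induction with
  | mem x h =>
    obtain ⟨u, v, rfl⟩ := h
    obtain ⟨F, hF, hFn⟩ := pr_comm hS u v
    obtain ⟨s, hs, n, hn, e⟩ := exists_rep hS hF v
    rw [hFn s hs n hn e]
    exact Subgroup.commutator_mem_commutator (Subgroup.mem_top _) (Subgroup.mem_top _)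
  | one => rw [pr_one hS]; exact Subgroup.one_mem _
  | mul x y hx hy ihx ihy =>
    rw [← commutator_eq_closure] at hx hy
    rw [pr_mul hS hx hy]
    exact Subgroup.mul_mem _ (ihx hx) (ihy hy)
  | inv x hx ih =>
    rw [← commutator_eq_closure] at hx
    rw [pr_inv hS hx]
    exact Subgroup.inv_mem _ (ih hx)

/-- elements of `G'` whose projection lies in `N₀` -/
def ctr (N₀ : Subgroup G) : Subgroup G where
  carrier := {x | x ∈ commutator G ∧ pr σ S x ∈ N₀}
  mul_mem' := by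
    rintro a b ⟨ha, ha'⟩ ⟨hb, hb'⟩
    exact ⟨Subgroup.mul_mem _ ha hb, by rw [pr_mul hS ha hb]; exact N₀.mul_mem ha' hb'⟩
  one_mem' := ⟨Subgroup.one_mem _, by rw [pr_one hS]; exact N₀.one_mem⟩
  inv_mem' := by
    rintro a ⟨ha, ha'⟩
    exact ⟨Subgroup.inv_mem _ ha, by rw [pr_inv hS ha]; exact N₀.inv_mem ha'⟩

theorem mem_ctr {N₀ : Subgroup G} {x : G} :
    x ∈ ctr hS N₀ ↔ x ∈ commutator G ∧ pr σ S x ∈ N₀ := Iff.rfl

theorem ctr_normal (N₀ : Subgroup G) [hN : N₀.Normal] : (ctr hS N₀).Normal := by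
  refine ⟨?_⟩
  rintro n ⟨hn, hn'⟩ g
  refine ⟨Subgroup.Normal.conj_mem inferInstance n hn g, ?_⟩
  rw [pr_conj hS hn]
  exact hN.conj_mem _ hn' g

/-- the projection is continuous for the topology of finite index normal subgroups -/
theorem pr_cont (N₀ : Subgroup G) [hN : N₀.Normal] [hfi : N₀.FiniteIndex] :
    ∃ L : Subgroup G, L.Normal ∧ L.FiniteIndex ∧
      ∀ x ∈ commutator G, (x ∈ L ↔ pr σ S x ∈ N₀) := by
  classical
  have hfq : Finite (G ⧸ N₀) := Subgroup.finite_quotient_of_finiteIndex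
  have hfq' : Fintype (G ⧸ N₀) := Fintype.ofFinite _
  let φ : (G ⧸ N₀) → G := fun q => if h : ∃ s ∈ S, (QuotientGroup.mk s : G ⧸ N₀) = q
    then h.choose else 1
  have hφS : ∀ q, φ q ∈ S := by
    intro q
    by_cases h : ∃ s ∈ S, (QuotientGroup.mk s : G ⧸ N₀) = q
    · simp only [φ, dif_pos h]; exact h.choose_spec.1
    · simp only [φ, dif_neg h]; exact one_mem hS
  have hφ : ∀ s ∈ S, (φ (QuotientGroup.mk s))⁻¹ * s ∈ N₀ := by
    intro s hs
    have h : ∃ t ∈ S, (QuotientGroup.mk t : G ⧸ N₀) = QuotientGroup.mk s := ⟨s, hs, rfl⟩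
    have : φ (QuotientGroup.mk s) = h.choose := by simp only [φ, dif_pos h]
    rw [this]
    exact QuotientGroup.eq.1 h.choose_spec.2
  let F₀ : Finset G := Finset.univ.image φ
  have hF₀ : (↑F₀ : Set G) ⊆ S := by
    intro x hx
    simp only [F₀, Finset.coe_image, Set.mem_image] at hx
    obtain ⟨q, _, rfl⟩ := hx
    exact hφS q
  have hφF : ∀ q, φ q ∈ (↑F₀ : Set G) := by
    intro q
    simp only [F₀, Finset.coe_image, Set.mem_image]
    exact ⟨q, by simp, rfl⟩
  have claimA : ∀ n ∈ σ.N F₀, ∀ v : G, pr σ S ⁅n, v⁆ ∈ N₀ := by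
    intro n hn v
    obtain ⟨F1, hF1, hF1'⟩ := pr_comm hS n v
    obtain ⟨s, hs, m, hm, hv⟩ := exists_rep hS hF1 v
    rw [hF1' s hs m hm hv]
    have hF2 : (↑(F₀ ∪ {s}) : Set G) ⊆ S := by
      intro y hy
      simp only [Finset.coe_union, Set.mem_union, Finset.coe_singleton,
        Set.mem_singleton_iff] at hy
      rcases hy with hy | rfl
      · exact hF₀ hy
      · exact hs
    obtain ⟨t, ht, m', hm', rfl⟩ := exists_rep hS hF2 n
    have hm0 : m' ∈ σ.N F₀ := σ.anti F₀ _ Finset.subset_union_left hm'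
    have ht0 : t ∈ σ.N F₀ := by
      have := (σ.N F₀).mul_mem hn ((σ.N F₀).inv_mem hm0)
      simpa using this
    have h1 : ⁅m', s⁆ = 1 := by
      rw [commutatorElement_eq_one_iff_mul_comm]
      exact (comm_of_mem (σ := σ) (F := F₀ ∪ {s})
        (Subgroup.subset_normalClosure (by simp)) hm').symm
    rw [comm_mul_left, h1]
    have h2 : t * 1 * t⁻¹ * ⁅t, s⁆ = ⁅t, s⁆ := by group
    rw [h2]
    have h3 := hφ s hs
    obtain ⟨f, hf⟩ : ∃ f, f = φ (QuotientGroup.mk s) := ⟨_, rfl⟩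
    rw [← hf] at h3
    have hfF : f ∈ (↑F₀ : Set G) := hf ▸ hφF _
    have h4 : s = f * (f⁻¹ * s) := by group
    rw [h4, comm_mul_right]
    have h5 : ⁅t, f⁆ = 1 := by
      rw [commutatorElement_eq_one_iff_mul_comm]
      exact (comm_of_mem (σ := σ) (F := F₀) (Subgroup.subset_normalClosure hfF) ht0).symm
    rw [h5, one_mul]
    refine hN.conj_mem _ ?_ f
    rw [commutatorElement_def]
    exact N₀.mul_mem (hN.conj_mem _ h3 t) (N₀.inv_mem h3)
  have hctr := ctr_normal hS N₀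
  have hnor := σ.nor F₀
  have hfi0 := σ.fi F₀
  have hPc : σ.P F₀ ≤ ctr hS N₀ := by
    unfold P
    rw [Subgroup.commutator_le]
    intro n hn g _
    exact ⟨Subgroup.commutator_mem_commutator (Subgroup.mem_top _) (Subgroup.mem_top _),
      claimA n hn g⟩
  obtain ⟨L, hL1, hL2, hL3⟩ := Sep.sep (ctr hS N₀) (σ.N F₀) (fun x hx => hx.1)
    (fun n hn g => ⟨Subgroup.commutator_mem_commutator (Subgroup.mem_top _)
      (Subgroup.mem_top _), claimA n hn g⟩) (q := N₀.index)
      (Nat.pos_of_ne_zero hfi.index_ne_zero) (by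
    intro d hd hdq
    obtain ⟨d', hd'S, hd'N, hd'⟩ := exists_pow hS hF₀ hd hdq
    have h1 : d' ^ N₀.index ∈ ctr hS N₀ := by
      refine ⟨?_, ?_⟩
      · have h2 := σ.P_le F₀ hd'
        have h3 := Subgroup.mul_mem _ hdq (Subgroup.inv_mem _ h2)
        have h4 : d ^ N₀.index * ((d' ^ N₀.index)⁻¹ * d ^ N₀.index)⁻¹ = d' ^ N₀.index := by
          group
        rwa [h4] at h3
      · have h5 : d' ^ N₀.index ∈ S := (sg hS).pow_mem hd'S _
        rw [pr_of_mem hS h5]
        exact Subgroup.pow_index_mem N₀ d'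
    have h6 := Subgroup.mul_mem _ h1 (hPc hd')
    have h7 : d' ^ N₀.index * ((d' ^ N₀.index)⁻¹ * d ^ N₀.index) = d ^ N₀.index := by group
    rwa [h7] at h6)
  refine ⟨L, hL1, hL2, ?_⟩
  intro x hx
  rw [hL3 x hx, mem_ctr]
  exact ⟨fun h => h.2, fun h => ⟨hx, h⟩⟩

end Sys

end Pool.Agent.Helper453.Gorch
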