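import Mathlib
import Pool.Agent.Helper453.Gorch

set_option autoImplicit false

namespace Pool.Agent.Helper453.Gorch

open Pool.Agent.Helper453.Clo
open scoped commutatorElement

variable {G : Type} [Group G]

/-- existence of a family of finite index normal subgroups which is point-finite on `G'` and
separates the points of `S ∩ G'` -/
def Good (S : Set G) : Prop :=
  ∃ (ι : Type) (N : ι → Subgroup G), (∀ i, (N i).Normal) ∧ (∀ i, (N i).FiniteIndex) ∧
    (∀ x ∈ commutator G, {i | x ∉ N i}.Finite) ∧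
    (∀ x ∈ commutator G, x ∈ S → x ≠ 1 → ∃ i, x ∉ N i)

namespace Sys

variable {σ : Sys G} {S : Set G}

theorem good_countable (hS : Closed σ.w S) (hc : S.Countable) : Good S := by
  classical
  let T : Set G := {x | x ∈ S ∧ x ∈ commutator G}
  have hT : T.Countable := hc.mono (fun x hx => hx.1)
  have hTn : T.Nonempty := ⟨1, one_mem hS, Subgroup.one_mem _⟩
  obtain ⟨e, he⟩ := hT.exists_eq_range hTn
  have heT : ∀ n, e n ∈ T := fun n => by rw [he]; exact ⟨n, rfl⟩
  let F : ℕ → Finset G := fun n => (Finset.range n).image e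
  let R : ℕ → Subgroup G := fun n => Subgroup.normalClosure (F n : Set G)
  have hFmono : ∀ m n, m ≤ n → F m ⊆ F n := by
    intro m n hmn
    exact Finset.image_subset_image (Finset.range_mono hmn)
  have hRmono : ∀ m n, m ≤ n → R m ≤ R n := by
    intro m n hmn
    exact Subgroup.normalClosure_mono (Finset.coe_subset.2 (hFmono m n hmn))
  have heR : ∀ k n, k < n → e k ∈ R n := by
    intro k n hkn
    refine Subgroup.subset_normalClosure ?_
    simp only [F, Finset.coe_image, Set.mem_image]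
    exact ⟨k, by simpa using hkn, rfl⟩
  have hRn : ∀ n, (R n).Normal := fun n => Subgroup.normalClosure_normal
  let L : ℕ → Subgroup G := fun n => R n ⊔ σ.N (F (n + 1))
  have hNn := σ.nor
  have hNf := σ.fi
  have hLn : ∀ n, (L n).Normal := fun n => Subgroup.sup_normal _ _
  have hLf : ∀ n, (L n).FiniteIndex := fun n =>
    Subgroup.finiteIndex_of_le (le_sup_right : σ.N (F (n + 1)) ≤ L n)
  choose L' h1 h2 h3 using fun n => pr_cont hS (L n)
  refine ⟨ℕ, L', h1, h2, ?_, ?_⟩
  · intro x hx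
    have hp : pr σ S x ∈ T := ⟨pr_mem hS hx, pr_mem_comm hS hx⟩
    rw [he] at hp
    obtain ⟨k, hk⟩ := hp
    refine (Set.finite_le_nat k).subset ?_
    intro n hn
    simp only [Set.mem_ofPred_eq] at hn ⊢
    by_contra hkn
    apply hn
    rw [h3 n x hx, ← hk]
    exact (le_sup_left : R n ≤ L n) (heR k n (by omega))
  · intro x hx hxS hx1
    have hxT : x ∈ T := ⟨hxS, hx⟩
    have hex : ∃ n, x ∈ R n := by
      rw [he] at hxT
      obtain ⟨k, hk⟩ := hxT
      exact ⟨k + 1, hk ▸ heR k (k + 1) (by omega)⟩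
    obtain ⟨n, hn⟩ : ∃ n, n = Nat.find hex := ⟨_, rfl⟩
    have hn1 : x ∈ R n := hn ▸ Nat.find_spec hex
    have hn2 : ∀ m, m < n → x ∉ R m := fun m hm => Nat.find_min hex (hn ▸ hm)
    rcases n with _ | m
    · exfalso
      apply hx1
      have : R 0 = ⊥ := by
        simp only [R, F]
        simp
      rw [this] at hn1
      exact (Subgroup.mem_bot).1 hn1
    · refine ⟨m, ?_⟩
      rw [h3 m x hx, pr_of_mem hS hxS]
      intro hxL
      have hRm := hRn m
      rw [Subgroup.mem_sup_of_normal_left] at hxL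
      obtain ⟨r, hr, y, hy, rfl⟩ := hxL
      have hy1 : y ∈ R (m + 1) := by
        have := (R (m + 1)).mul_mem ((R (m + 1)).inv_mem (hRmono m (m + 1) (by omega) hr)) hn1
        simpa using this
      have := σ.disj (F (m + 1)) y hy hy1
      subst this
      exact hn2 m (by omega) (by simpa using hr)

theorem pr_of_sub {S₁ S₂ : Set G} (h₁ : Closed σ.w S₁) (h₂ : Closed σ.w S₂) (h : S₁ ⊆ S₂)
    {x : G} (hx : x ∈ commutator G) (hp : pr σ S₂ x ∈ S₁) : pr σ S₁ x = pr σ S₂ x :=
  pr_eq h₁ hp (σ.K_anti h (pr_spec h₂ hx))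

/-- the difference of two projections -/
noncomputable def dif (σ : Sys G) (S₁ S₂ : Set G) (x : G) : G := (pr σ S₁ x)⁻¹ * pr σ S₂ x

section dif

variable {S₁ S₂ : Set G} (h₁ : Closed σ.w S₁) (h₂ : Closed σ.w S₂) (h : S₁ ⊆ S₂)

include h₁ h₂ h

theorem dif_mem {x : G} (hx : x ∈ commutator G) : dif σ S₁ S₂ x ∈ S₂ :=
  mul_mem h₂ (inv_mem h₂ (h (pr_mem h₁ hx))) (pr_mem h₂ hx)

theorem dif_mem_K {x : G} (hx : x ∈ commutator G) : dif σ S₁ S₂ x ∈ σ.K S₁ := by
  have e : dif σ S₁ S₂ x = ((pr σ S₁ x)⁻¹ * x) * ((pr σ S₂ x)⁻¹ * x)⁻¹ := by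
    unfold dif; group
  rw [e]
  exact (σ.K S₁).mul_mem (pr_spec h₁ hx) ((σ.K S₁).inv_mem (σ.K_anti h (pr_spec h₂ hx)))

omit h in
theorem dif_comm {x : G} (hx : x ∈ commutator G) : dif σ S₁ S₂ x ∈ commutator G :=
  Subgroup.mul_mem _ (Subgroup.inv_mem _ (pr_mem_comm h₁ hx)) (pr_mem_comm h₂ hx)

theorem dif_mul {x y : G} (hx : x ∈ commutator G) (hy : y ∈ commutator G) :
    dif σ S₁ S₂ (x * y) = dif σ S₁ S₂ x * dif σ S₁ S₂ y := by
  have hc := comm_K (pr_mem h₁ hy) (dif_mem_K h₁ h₂ h hx)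
  have e1 : dif σ S₁ S₂ (x * y) =
      (pr σ S₁ y)⁻¹ * (dif σ S₁ S₂ x * pr σ S₂ y) := by
    unfold dif
    rw [pr_mul h₁ hx hy, pr_mul h₂ hx hy]; group
  have e2 : dif σ S₁ S₂ x = (pr σ S₁ y)⁻¹ * (dif σ S₁ S₂ x * pr σ S₁ y) := by
    rw [← hc]; group
  rw [e1]
  conv_rhs => rw [e2]
  unfold dif
  group

omit h in
theorem dif_one : dif σ S₁ S₂ 1 = 1 := by
  unfold dif; rw [pr_one h₁, pr_one h₂]; simp

theorem dif_inv {x : G} (hx : x ∈ commutator G) : dif σ S₁ S₂ x⁻¹ = (dif σ S₁ S₂ x)⁻¹ := by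
  have h' := dif_mul h₁ h₂ h hx ((commutator G).inv_mem hx)
  rw [mul_inv_cancel, dif_one h₁ h₂] at h'
  exact (inv_eq_of_mul_eq_one_right h'.symm).symm

omit h in
theorem dif_conj {x : G} (hx : x ∈ commutator G) (g : G) :
    dif σ S₁ S₂ (g * x * g⁻¹) = g * dif σ S₁ S₂ x * g⁻¹ := by
  unfold dif
  rw [pr_conj h₁ hx, pr_conj h₂ hx]; group

theorem dif_cont (N₀ : Subgroup G) [hN : N₀.Normal] [hfi : N₀.FiniteIndex] :
    ∃ L : Subgroup G, L.Normal ∧ L.FiniteIndex ∧
      ∀ x ∈ commutator G, (x ∈ L ↔ dif σ S₁ S₂ x ∈ N₀) := by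
  obtain ⟨L₁, a₁, b₁, c₁⟩ := pr_cont h₁ N₀
  obtain ⟨L₂, a₂, b₂, c₂⟩ := pr_cont h₂ N₀
  let Y : Subgroup G :=
    { carrier := {x | x ∈ commutator G ∧ dif σ S₁ S₂ x ∈ N₀}
      mul_mem' := by
        rintro a b ⟨ha, ha'⟩ ⟨hb, hb'⟩
        exact ⟨Subgroup.mul_mem _ ha hb, by
          rw [dif_mul h₁ h₂ h ha hb]; exact N₀.mul_mem ha' hb'⟩
      one_mem' := ⟨Subgroup.one_mem _, by rw [dif_one h₁ h₂]; exact N₀.one_mem⟩
      inv_mem' := by
        rintro a ⟨ha, ha'⟩
        exact ⟨Subgroup.inv_mem _ ha, by rw [dif_inv h₁ h₂ h ha]; exact N₀.inv_mem ha'⟩ }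
  have hYn : Y.Normal := by
    refine ⟨?_⟩
    rintro n ⟨hn, hn'⟩ g
    refine ⟨Subgroup.Normal.conj_mem inferInstance n hn g, ?_⟩
    rw [dif_conj h₁ h₂ hn]
    exact hN.conj_mem _ hn' g
  have hLn : (L₁ ⊓ L₂).Normal := inferInstance
  have hLf : (L₁ ⊓ L₂).FiniteIndex := inferInstance
  refine ⟨(L₁ ⊓ L₂) ⊔ Y, Subgroup.sup_normal _ _,
    Subgroup.finiteIndex_of_le (le_sup_left : L₁ ⊓ L₂ ≤ _), ?_⟩
  intro x hx
  constructor
  · intro hxL
    rw [Subgroup.mem_sup_of_normal_left] at hxL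
    obtain ⟨l, hl, y, hy, rfl⟩ := hxL
    have hlc : l ∈ commutator G := by
      have := (commutator G).mul_mem hx ((commutator G).inv_mem hy.1)
      simpa using this
    rw [dif_mul h₁ h₂ h hlc hy.1]
    refine N₀.mul_mem ?_ hy.2
    unfold dif
    exact N₀.mul_mem (N₀.inv_mem ((c₁ l hlc).1 hl.1)) ((c₂ l hlc).1 hl.2)
  · intro hd
    exact (le_sup_right : Y ≤ (L₁ ⊓ L₂) ⊔ Y) ⟨hx, hd⟩

end dif

/-- every infinite subset of a well-ordered set has an infinite subset all of whose initial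
segments are finite -/
theorem exists_sub {α : Type} (r : α → α → Prop) [wo : IsWellOrder α r] {A : Set α}
    (hA : A.Infinite) : ∃ A' ⊆ A, A'.Infinite ∧ ∀ a ∈ A', {b ∈ A' | r b a}.Finite := by
  by_cases h : ∃ δ, {a ∈ A | r a δ}.Infinite
  · let D : Set α := {δ | {a ∈ A | r a δ}.Infinite}
    have hD : D.Nonempty := h
    have hwf : WellFounded r := wo.wf
    refine ⟨{a ∈ A | r a (hwf.min D hD)}, fun a ha => ha.1, hwf.min_mem D hD, ?_⟩
    intro a ha
    by_contra hinf
    have haD : a ∈ D := by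
      refine Set.Infinite.mono ?_ hinf
      intro b hb
      exact ⟨hb.1.1, hb.2⟩
    exact hwf.not_lt_min D haD ha.2
  · push Not at h
    refine ⟨A, subset_rfl, hA, ?_⟩
    intro a _
    exact h a

open Cardinal in
theorem good_of_closed (κ : Cardinal.{0}) : ∀ S : Set G, Closed σ.w S → #S = κ → Good S := by
  induction κ using Cardinal.lt_wf.induction with
  | h κ ih =>
  intro S hS hSκ
  by_cases hcnt : S.Countable
  · exact good_countable hS hcnt
  have hκ : ℵ₀ < κ := by
    rw [← hSκ]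
    by_contra hle
    exact hcnt ((Cardinal.le_aleph0_iff_set_countable).1 (not_lt.1 hle))
  obtain ⟨r, wo, hr⟩ := Cardinal.exists_ord_eq S
  have hwf : WellFounded r := wo.wf
  -- initial segments
  let I : S → Set G := fun s => Subtype.val '' {t : S | r t s}
  let Cl : S → Set G := fun s => cl σ.w (I s)
  let Ce : S → Set G := fun s => cl σ.w (I s ∪ {s.1})
  let C0 : Set G := cl σ.w ∅
  have hCl : ∀ s, Closed σ.w (Cl s) := fun s => closed_cl _
  have hCe : ∀ s, Closed σ.w (Ce s) := fun s => closed_cl _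
  have hC0 : Closed σ.w C0 := closed_cl _
  have hsub : ∀ s, Cl s ⊆ Ce s := fun s => cl_mono Set.subset_union_left
  have hsub2 : ∀ s t, r s t → Ce s ⊆ Cl t := by
    intro s t hst
    refine cl_mono ?_
    intro x hx
    rcases hx with ⟨u, hu, rfl⟩ | hx
    · exact ⟨u, trans_of r hu hst, rfl⟩
    · exact ⟨s, hst, (Set.mem_singleton_iff.1 hx).symm⟩
  have hmem : ∀ s : S, s.1 ∈ Ce s := fun s => subset_cl _ (Or.inr rfl)
  have hCeS : ∀ s, Ce s ⊆ S := by
    intro s
    refine cl_min ?_ hS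
    intro x hx
    rcases hx with ⟨u, _, rfl⟩ | hx
    · exact u.2
    · rw [Set.mem_singleton_iff.1 hx]; exact s.2
  have hcard : ∀ s, #(Ce s) < κ := by
    intro s
    refine (mk_cl_le σ.w_countable _).trans_lt ?_
    refine max_lt ?_ hκ
    refine (mk_union_le _ _).trans_lt ?_
    refine add_lt_of_lt hκ.le ?_ ?_
    · have h1 : #(I s) ≤ #{t : S // r t s} := mk_image_le
      refine h1.trans_lt ?_
      rw [← Ordinal.card_typein, ← hSκ]
      exact card_typein_lt s hr
    · rw [mk_singleton]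
      exact one_lt_aleph0.trans hκ
  have hgood : ∀ s, Good (Ce s) := fun s => ih _ (hcard s) _ (hCe s) rfl
  have hgood0 : Good C0 := by
    refine good_countable hC0 ?_
    rw [← Cardinal.le_aleph0_iff_set_countable]
    refine (mk_cl_le σ.w_countable _).trans ?_
    simp
  choose ι N hn hf hpf hsep using hgood
  obtain ⟨ι0, N0, hn0, hf0, hpf0, hsep0⟩ := hgood0
  -- the pulled back families
  have hL : ∀ (s : S) (i : ι s), ∃ L : Subgroup G, L.Normal ∧ L.FiniteIndex ∧
      ∀ x ∈ commutator G, (x ∈ L ↔ dif σ (Cl s) (Ce s) x ∈ N s i) := by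
    intro s i
    have := hn s i
    have := hf s i
    exact dif_cont (hCl s) (hCe s) (hsub s) (N s i)
  choose L hLn hLf hLm using hL
  have hL0 : ∀ (i : ι0), ∃ L : Subgroup G, L.Normal ∧ L.FiniteIndex ∧
      ∀ x ∈ commutator G, (x ∈ L ↔ pr σ C0 x ∈ N0 i) := by
    intro i
    have := hn0 i
    have := hf0 i
    exact pr_cont hC0 (N0 i)
  choose L0 hL0n hL0f hL0m using hL0
  -- finiteness of the support
  have hsupp : ∀ x ∈ commutator G, {s : S | dif σ (Cl s) (Ce s) x ≠ 1}.Finite := by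
    intro x hx
    by_contra hinf
    obtain ⟨A, hAsub, hAinf, hAfin⟩ := exists_sub r hinf
    obtain ⟨a₀, ha₀⟩ := hAinf.nonempty
    have hnext : ∀ a ∈ A, ∃ b ∈ A, r a b := by
      intro a ha
      have hfin : ({b ∈ A | r b a} ∪ {a}).Finite := (hAfin a ha).union (Set.finite_singleton a)
      obtain ⟨b, hb, hb'⟩ := hAinf.exists_notMem_finite hfin
      refine ⟨b, hb, ?_⟩
      rcases trichotomous_of r a b with h | h | h
      · exact h
      · exact absurd (Or.inr h.symm) hb'
      · exact absurd (Or.inl ⟨hb, h⟩) hb'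
    have hne : Nonempty A := ⟨⟨a₀, ha₀⟩⟩
    let U : Set G := ⋃ a : A, Ce a.1
    have hdir : Directed (· ⊆ ·) (fun a : A => Ce a.1) := by
      rintro a b
      rcases trichotomous_of r a.1 b.1 with h | h | h
      · exact ⟨b, (hsub2 _ _ h).trans (hsub _), subset_rfl⟩
      · refine ⟨a, subset_rfl, ?_⟩
        simp only [h]; exact subset_rfl
      · exact ⟨a, subset_rfl, (hsub2 _ _ h).trans (hsub _)⟩
    have hU : Closed σ.w U := closed_iUnion _ (fun a => hCe a.1) hdir
    have hpU := pr_mem hU hx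
    obtain ⟨a, ha⟩ := Set.mem_iUnion.1 hpU
    obtain ⟨b, hb, hab⟩ := hnext a.1 a.2
    have hbU : Ce b ⊆ U := Set.subset_iUnion (fun a : A => Ce a.1) ⟨b, hb⟩
    have e1 : pr σ (Cl b) x = pr σ U x :=
      pr_of_sub (hCl b) hU ((hsub b).trans hbU) hx (hsub2 _ _ hab ha)
    have e2 : pr σ (Ce b) x = pr σ U x :=
      pr_of_sub (hCe b) hU hbU hx (hsub b (hsub2 _ _ hab ha))
    apply hAsub hb
    unfold dif
    rw [e1, e2]; simp
  refine ⟨(Σ s : S, ι s) ⊕ ι0, fun j => match j with
    | Sum.inl p => L p.1 p.2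
    | Sum.inr i => L0 i, ?_, ?_, ?_, ?_⟩
  · rintro (⟨s, i⟩ | i)
    · exact hLn s i
    · exact hL0n i
  · rintro (⟨s, i⟩ | i)
    · exact hLf s i
    · exact hL0f i
  · intro x hx
    have hfin1 : {p : Σ s : S, ι s | x ∉ L p.1 p.2}.Finite := by
      have hsub3 : {p : Σ s : S, ι s | x ∉ L p.1 p.2} ⊆
          ⋃ s ∈ {s : S | dif σ (Cl s) (Ce s) x ≠ 1},
            (Sigma.mk s) '' {i : ι s | dif σ (Cl s) (Ce s) x ∉ N s i} := by
        rintro ⟨s, i⟩ hp
        simp only [Set.mem_ofPred_eq] at hp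
        rw [hLm s i x hx] at hp
        simp only [Set.mem_iUnion]
        refine ⟨s, ?_, ⟨i, hp, rfl⟩⟩
        simp only [Set.mem_ofPred_eq]
        intro h1
        rw [h1] at hp
        exact hp (N s i).one_mem
      refine Set.Finite.subset (Set.Finite.biUnion (hsupp x hx) ?_) hsub3
      intro s _
      exact (hpf s _ (dif_comm (hCl s) (hCe s) hx)).image _
    have hfin2 : {i : ι0 | x ∉ L0 i}.Finite := by
      refine (hpf0 _ (pr_mem_comm hC0 hx)).subset ?_
      intro i hi
      simp only [Set.mem_ofPred_eq] at hi ⊢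
      rwa [hL0m i x hx] at hi
    refine ((hfin1.image Sum.inl).union (hfin2.image Sum.inr)).subset ?_
    rintro (p | i) hj
    · left; exact ⟨p, hj, rfl⟩
    · right; exact ⟨i, hj, rfl⟩
  · intro x hx hxS hx1
    by_contra hall
    push Not at hall
    have hall1 : ∀ s : S, dif σ (Cl s) (Ce s) x = 1 := by
      intro s
      by_contra hne
      obtain ⟨i, hi⟩ := hsep s _ (dif_comm (hCl s) (hCe s) hx)
        (dif_mem (hCl s) (hCe s) (hsub s) hx) hne
      exact hi ((hLm s i x hx).1 (hall (Sum.inl ⟨s, i⟩)))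
    have hall0 : pr σ C0 x = 1 := by
      by_contra hne
      obtain ⟨i, hi⟩ := hsep0 _ (pr_mem_comm hC0 hx) (pr_mem hC0 hx) hne
      exact hi ((hL0m i x hx).1 (hall (Sum.inr i)))
    have hpr : ∀ s : S, pr σ (Ce s) x = 1 := by
      intro s
      induction s using hwf.induction with
      | h s ihs =>
      have hstep : pr σ (Cl s) x = 1 := by
        by_cases hem : ∃ t, r t s
        · obtain ⟨t₀, ht₀⟩ := hem
          have hne : Nonempty {t : S // r t s} := ⟨⟨t₀, ht₀⟩⟩
          have hdir : Directed (· ⊆ ·) (fun a : {t : S // r t s} => Ce a.1) := by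
            rintro a b
            rcases trichotomous_of r a.1 b.1 with h | h | h
            · exact ⟨b, (hsub2 _ _ h).trans (hsub _), subset_rfl⟩
            · refine ⟨a, subset_rfl, ?_⟩
              simp only [h]; exact subset_rfl
            · exact ⟨a, subset_rfl, (hsub2 _ _ h).trans (hsub _)⟩
          have hclosed : Closed σ.w (⋃ a : {t : S // r t s}, Ce a.1) :=
            closed_iUnion _ (fun a => hCe a.1) hdir
          have hsubU : Cl s ⊆ ⋃ a : {t : S // r t s}, Ce a.1 := by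
            refine cl_min ?_ hclosed
            rintro _ ⟨t, ht, rfl⟩
            exact Set.mem_iUnion.2 ⟨⟨t, ht⟩, hmem t⟩
          obtain ⟨t, ht⟩ := Set.mem_iUnion.1 (hsubU (pr_mem (hCl s) hx))
          have := pr_of_sub (hCe t.1) (hCl s) (hsub2 _ _ t.2) hx ht
          rw [← this]
          exact ihs t.1 t.2
        · have hI : I s = ∅ := by
            simp only [I]
            rw [Set.image_eq_empty]
            ext t
            simp only [Set.mem_ofPred_eq, Set.mem_empty_iff_false, iff_false]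
            intro ht; exact hem ⟨t, ht⟩
          have : Cl s = C0 := by simp only [Cl, C0, hI]
          rw [this]; exact hall0
      have := hall1 s
      unfold dif at this
      rw [hstep] at this
      simpa using this
    apply hx1
    have h1 := hpr ⟨x, hxS⟩
    rwa [pr_of_mem (hCe _) (hmem ⟨x, hxS⟩)] at h1

end Sys

/-- **Gorchakov type theorem**: a residually finite locally normal group has a family of normal
subgroups of finite index which is point-finite on the derived subgroup and separates its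
elements. -/
theorem exists_family
    (hLN : ∀ s : Finset G, ∃ R : Subgroup G, R.Normal ∧ (R : Set G).Finite ∧ (↑s : Set G) ⊆ R)
    (hRF : ∀ g : G, g ≠ 1 → ∃ N : Subgroup G, N.Normal ∧ N.FiniteIndex ∧ g ∉ N) :
    ∃ (ι : Type) (N : ι → Subgroup G), (∀ i, (N i).Normal) ∧ (∀ i, (N i).FiniteIndex) ∧
      (∀ x ∈ commutator G, {i | x ∉ N i}.Finite) ∧
      (∀ x ∈ commutator G, x ≠ 1 → ∃ i, x ∉ N i) := by
  classical
  have hM : ∀ g : G, ∃ N : Subgroup G, N.Normal ∧ N.FiniteIndex ∧ (g ≠ 1 → g ∉ N) := by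
    intro g
    by_cases hg : g = 1
    · exact ⟨⊤, inferInstance, inferInstance, fun h => absurd hg h⟩
    · obtain ⟨N, h1, h2, h3⟩ := hRF g hg
      exact ⟨N, h1, h2, fun _ => h3⟩
  choose M hM1 hM2 hM3 using hM
  have hfinR : ∀ F : Finset G, (Subgroup.normalClosure (F : Set G) : Set G).Finite := by
    intro F
    obtain ⟨R, hR1, hR2, hR3⟩ := hLN F
    exact hR2.subset (Subgroup.normalClosure_le_normal hR3)
  let σ : Sys G :=
    { N := fun F => ⨅ g : (Subgroup.normalClosure (F : Set G) : Set G), M g.1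
      nor := fun F => Subgroup.normal_iInf_normal (fun g => hM1 g.1)
      fi := fun F => by
        have : Finite (Subgroup.normalClosure (F : Set G) : Set G) := hfinR F
        exact Subgroup.finiteIndex_iInf (fun g => hM2 g.1)
      anti := by
        intro F F' hFF' x hx
        rw [Subgroup.mem_iInf] at hx ⊢
        rintro ⟨g, hg⟩
        exact hx ⟨g, Subgroup.normalClosure_mono (Finset.coe_subset.2 hFF') hg⟩
      disj := by
        intro F x hx hx'
        rw [Subgroup.mem_iInf] at hx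
        by_contra hne
        exact hM3 x hne (hx ⟨x, hx'⟩)
      finR := hfinR }
  obtain ⟨ι, N, h1, h2, h3, h4⟩ := Sys.good_of_closed (σ := σ) _ Set.univ
    (fun F _ => Set.subset_univ _) rfl
  exact ⟨ι, N, h1, h2, h3, fun x hx hx1 => h4 x hx (Set.mem_univ x) hx1⟩

end Pool.Agent.Helper453.Gorch
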