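import Mathlib
import Pool.Agent.Helper453.Main

set_option autoImplicit false

namespace Pool.Agent.Helper453.Embed

open scoped commutatorElement IsMulCommutative

/-- a group with a point-finite separating family of normal subgroups of finite index embeds in a
restricted direct product of finite groups -/
theorem embed_of_family {H : Type} [Group H] {I : Type} (L : I → Subgroup H)
    (h1 : ∀ i, (L i).Normal) (h2 : ∀ i, (L i).FiniteIndex)
    (hpf : ∀ h : H, {i | h ∉ L i}.Finite) (hsep : ∀ h : H, h ≠ 1 → ∃ i, h ∉ L i) :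
    ∃ (ι : Type) (F : ι → Type) (_ : ∀ i, Group (F i)) (_ : ∀ i, Finite (F i))
        (f : H →* ((i : ι) → F i)),
        Function.Injective f ∧ ∀ x, {i : ι | f x i ≠ 1}.Finite := by
  refine ⟨I, fun i => H ⧸ L i, fun i => by have := h1 i; infer_instance,
    fun i => by have := h2 i; exact Subgroup.finite_quotient_of_finiteIndex, ?_⟩
  have := h1
  refine ⟨MonoidHom.pi (fun i => QuotientGroup.mk' (L i)), ?_, ?_⟩
  · rw [injective_iff_map_eq_one]
    intro a ha
    by_contra hne
    obtain ⟨i, hi⟩ := hsep a hne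
    have h3 := congrFun ha i
    exact hi ((QuotientGroup.eq_one_iff a).1 h3)
  · intro x
    refine (hpf x).subset ?_
    intro i hi
    simp only [Set.mem_ofPred_eq] at hi ⊢
    intro hx
    exact hi ((QuotientGroup.eq_one_iff x).2 hx)

theorem exists_hom {C A : Type} [AddCommGroup C] [AddCommGroup A] (γ : C)
    (hγ : ∀ x : C, ∃ m : ℤ, m • γ = x) (a : A) (ha : addOrderOf γ • a = 0) :
    ∃ f : C →+ A, f γ = a := by
  have hs : Function.Surjective (zmultiplesHom C γ) := by
    intro x
    obtain ⟨m, hm⟩ := hγ x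
    exact ⟨m, by simpa using hm⟩
  have hk : (zmultiplesHom C γ).ker ≤ (zmultiplesHom A a).ker := by
    intro m hm
    rw [AddMonoidHom.mem_ker] at hm ⊢
    rw [zmultiplesHom_apply] at hm ⊢
    have h1 : (addOrderOf γ : ℤ) ∣ m := addOrderOf_dvd_iff_zsmul_eq_zero.2 hm
    obtain ⟨k, rfl⟩ := h1
    rw [mul_comm, mul_smul, natCast_zsmul, ha, smul_zero]
  refine ⟨(zmultiplesHom C γ).liftOfSurjective hs ⟨zmultiplesHom A a, hk⟩, ?_⟩
  have h2 := AddMonoidHom.liftOfRightInverse_comp_apply (zmultiplesHom C γ)
    (Function.surjInv hs) (Function.rightInverse_surjInv hs) ⟨zmultiplesHom A a, hk⟩ 1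
  simp only [zmultiplesHom_apply, one_smul] at h2
  exact h2

/-- the main embedding theorem -/
theorem embed {G H K : Type} [Group G] [Group H] [DecidableEq K] {C : K → Type}
    [∀ k, AddCommGroup (C k)]
    (hcyc : ∀ k, IsAddCyclic (C k)) (hfinC : ∀ k, Finite (C k))
    (hFC : ∀ g : G, {h : G | IsConj g h}.Finite)
    {ι : Type} (N : ι → Subgroup G) (hN1 : ∀ i, (N i).Normal) (hN2 : ∀ i, (N i).FiniteIndex)
    (hN3 : ∀ x ∈ commutator G, {i | x ∉ N i}.Finite)
    (hN4 : ∀ x ∈ commutator G, x ≠ 1 → ∃ i, x ∉ N i)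
    (j : H →* G) (hj : Function.Injective j)
    (ψ : H →* Multiplicative (Π₀ k, C k)) (hψ : Function.Surjective ψ)
    (hker : ∀ h, ψ h = 1 ↔ j h ∈ commutator G) :
    ∃ (ι : Type) (F : ι → Type) (_ : ∀ i, Group (F i)) (_ : ∀ i, Finite (F i))
        (f : H →* ((i : ι) → F i)),
        Function.Injective f ∧ ∀ x, {i : ι | f x i ≠ 1}.Finite := by
  classical
  have hgen : ∀ k, ∃ γ : C k, ∀ x : C k, ∃ m : ℤ, m • γ = x := fun k =>
    (hcyc k).exists_zsmul_surjective
  choose γ hγ using hgen
  have hg : ∀ k, ∃ g : H, ψ g = Multiplicative.ofAdd (DFinsupp.single k (γ k)) :=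
    fun k => hψ _
  choose g hg using hg
  let q : ∀ (i : ι) (_ : K), G ⧸ N i := fun i k => QuotientGroup.mk (j (g k))
  let P : ι → K → Prop := fun i k =>
    q i k ∈ Subgroup.center (G ⧸ N i) ∧ q i k ^ (addOrderOf (γ k)) = 1
  have hpow : ∀ k, j (g k) ^ (addOrderOf (γ k)) ∈ commutator G := by
    intro k
    rw [← map_pow, ← hker, map_pow, hg, ← ofAdd_nsmul, ← DFinsupp.single_smul,
      addOrderOf_nsmul_eq_zero, DFinsupp.single_zero]
    rfl
  have hPfin : ∀ k, {i | ¬ P i k}.Finite := by
    intro k
    have hfc : {c : G | ∃ v, c = ⁅j (g k), v⁆}.Finite := by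
      refine ((hFC (j (g k))⁻¹).image (fun y => j (g k) * y)).subset ?_
      rintro c ⟨v, rfl⟩
      refine ⟨v * (j (g k))⁻¹ * v⁻¹, ?_, ?_⟩
      · simp only [Set.mem_ofPred_eq]
        rw [isConj_iff]
        exact ⟨v, rfl⟩
      · rw [commutatorElement_def]; group
    have hsub : {i | ¬ P i k} ⊆ (⋃ c ∈ {c : G | ∃ v, c = ⁅j (g k), v⁆}, {i | c ∉ N i}) ∪
        {i | j (g k) ^ (addOrderOf (γ k)) ∉ N i} := by
      intro i hi
      simp only [Set.mem_ofPred_eq] at hi
      by_contra hcon
      apply hi
      simp only [Set.mem_union, Set.mem_iUnion, Set.mem_ofPred_eq, not_or, not_exists,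
        not_not] at hcon
      refine ⟨?_, ?_⟩
      · rw [Subgroup.mem_center_iff]
        intro y
        obtain ⟨v, rfl⟩ := QuotientGroup.mk_surjective y
        have h1 := hcon.1 ⁅j (g k), v⁆ ⟨v, rfl⟩
        have h2 : (QuotientGroup.mk ⁅j (g k), v⁆ : G ⧸ N i) = 1 :=
          (QuotientGroup.eq_one_iff _).2 h1
        have h3 : (QuotientGroup.mk' (N i)) ⁅j (g k), v⁆ = 1 := h2
        rw [map_commutatorElement, commutatorElement_eq_one_iff_mul_comm] at h3
        exact h3.symm
      · have h2 : (QuotientGroup.mk (j (g k) ^ (addOrderOf (γ k))) : G ⧸ N i) = 1 :=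
          (QuotientGroup.eq_one_iff _).2 hcon.2
        rw [QuotientGroup.mk_pow] at h2
        exact h2
    refine Set.Finite.subset ?_ hsub
    refine Set.Finite.union (Set.Finite.biUnion hfc ?_) (hN3 _ (hpow k))
    rintro c ⟨v, rfl⟩
    exact hN3 _ (Subgroup.commutator_mem_commutator (Subgroup.mem_top _) (Subgroup.mem_top _))
  have hhom : ∀ (i : ι) (k : K), ∃ f : C k →+ Additive (Subgroup.center (G ⧸ N i)),
      P i k → ((Additive.toMul (f (γ k))).1 = (q i k)⁻¹) := by
    intro i k
    by_cases hP : P i k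
    · obtain ⟨f, hf⟩ := exists_hom (γ k) (hγ k)
        (Additive.ofMul (⟨(q i k)⁻¹, Subgroup.inv_mem _ hP.1⟩ : Subgroup.center (G ⧸ N i)))
        (by
          rw [← ofMul_pow]
          have : (⟨(q i k)⁻¹, Subgroup.inv_mem _ hP.1⟩ : Subgroup.center (G ⧸ N i)) ^
              (addOrderOf (γ k)) = 1 := by
            apply Subtype.ext
            simp only [SubmonoidClass.coe_pow, inv_pow, OneMemClass.coe_one, hP.2, inv_one]
          rw [this]; rfl)
      refine ⟨f, fun _ => ?_⟩
      rw [hf]; rfl
    · exact ⟨0, fun h => absurd h hP⟩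
  choose f hf using hhom
  let χ : ∀ i, (Π₀ k, C k) →+ Additive (Subgroup.center (G ⧸ N i)) := fun i =>
    DFinsupp.liftAddHom (f i)
  let θ : ∀ i, H →* (G ⧸ N i) := fun i =>
    { toFun := fun h => (QuotientGroup.mk (j h) : G ⧸ N i) *
        (Additive.toMul (χ i (Multiplicative.toAdd (ψ h)))).1
      map_one' := by simp
      map_mul' := by
        intro a b
        have hc := (Additive.toMul (χ i (Multiplicative.toAdd (ψ a)))).2
        rw [Subgroup.mem_center_iff] at hc
        rw [map_mul, map_mul, toAdd_mul, map_add, toMul_add, Subgroup.coe_mul, QuotientGroup.mk_mul]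
        have h1 := hc (QuotientGroup.mk (j b) : G ⧸ N i)
        rw [mul_assoc, ← mul_assoc (QuotientGroup.mk (j b) : G ⧸ N i), h1]
        simp only [mul_assoc] }
  have hθ : ∀ i h, θ i h = (QuotientGroup.mk (j h) : G ⧸ N i) *
        (Additive.toMul (χ i (Multiplicative.toAdd (ψ h)))).1 := fun i h => rfl
  have hθc : ∀ i h, j h ∈ commutator G → θ i h = QuotientGroup.mk (j h) := by
    intro i h hh
    rw [hθ, (hker h).2 hh]
    simp
  have hθg : ∀ i k, P i k → θ i (g k) = 1 := by
    intro i k hP
    rw [hθ, hg]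
    simp only [toAdd_ofAdd, χ]
    rw [DFinsupp.liftAddHom_apply_single, hf i k hP]
    simp [q]
  -- finite supports
  let T : Subgroup H :=
    { carrier := {h | {i | θ i h ≠ 1}.Finite}
      mul_mem' := by
        intro a b ha hb
        refine (Set.Finite.union ha hb).subset ?_
        intro i hi
        by_contra hcon
        simp only [Set.mem_union, Set.mem_ofPred_eq, not_or, not_not] at hcon hi
        apply hi
        rw [map_mul, hcon.1, hcon.2, one_mul]
      one_mem' := by simp
      inv_mem' := by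
        intro a ha
        refine Set.Finite.subset ha ?_
        intro i hi
        simp only [Set.mem_ofPred_eq, map_inv, ne_eq, inv_eq_one] at hi ⊢
        exact hi }
  have hTg : ∀ k, g k ∈ T := by
    intro k
    refine (hPfin k).subset ?_
    intro i hi
    simp only [Set.mem_ofPred_eq] at hi ⊢
    intro hP
    exact hi (hθg i k hP)
  have hTc : ∀ h, j h ∈ commutator G → h ∈ T := by
    intro h hh
    refine (hN3 _ hh).subset ?_
    intro i hi
    simp only [Set.mem_ofPred_eq] at hi ⊢
    intro hmem
    apply hi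
    rw [hθc i h hh]
    exact (QuotientGroup.eq_one_iff _).2 hmem
  have hTsingle : ∀ (k : K) (c : C k), ∃ t ∈ T, ψ t = Multiplicative.ofAdd (DFinsupp.single k c) := by
    intro k c
    obtain ⟨m, hm⟩ := hγ k c
    refine ⟨g k ^ m, T.zpow_mem (hTg k) m, ?_⟩
    rw [map_zpow, hg, ← ofAdd_zsmul, ← hm]
    congr 1
    rw [DFinsupp.single_smul]
  have hTall : ∀ v : Π₀ k, C k, ∃ t ∈ T, ψ t = Multiplicative.ofAdd v := by
    intro v
    induction v using DFinsupp.induction with
    | h0 => exact ⟨1, T.one_mem, by simp⟩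
    | ha k c v _ _ ih =>
      obtain ⟨t, ht, ht'⟩ := ih
      obtain ⟨s, hs, hs'⟩ := hTsingle k c
      refine ⟨s * t, T.mul_mem hs ht, ?_⟩
      rw [map_mul, hs', ht', ofAdd_add]
  have hT : ∀ h, h ∈ T := by
    intro h
    obtain ⟨t, ht, ht'⟩ := hTall (Multiplicative.toAdd (ψ h))
    have h1 : ψ (t⁻¹ * h) = 1 := by
      rw [map_mul, map_inv, ht']; simp
    have h2 := hTc _ ((hker _).1 h1)
    have h3 := T.mul_mem ht h2
    simpa using h3
  -- the two families
  let ρ : ∀ k, H →* Multiplicative (C k) := fun k =>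
    (AddMonoidHom.toMultiplicative (DFinsupp.evalAddMonoidHom k)).comp ψ
  have hρ : ∀ k h, ρ k h = Multiplicative.ofAdd ((Multiplicative.toAdd (ψ h)) k) := fun k h => rfl
  refine embed_of_family (I := ι ⊕ K) (fun a => match a with
    | Sum.inl i => (θ i).ker
    | Sum.inr k => (ρ k).ker) ?_ ?_ ?_ ?_
  · rintro (i | k)
    · exact MonoidHom.normal_ker _
    · exact MonoidHom.normal_ker _
  · rintro (i | k)
    · have := hN2 i
      have : Finite (G ⧸ N i) := Subgroup.finite_quotient_of_finiteIndex
      exact Subgroup.finiteIndex_ker _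
    · have := hfinC k
      have : Finite (Multiplicative (C k)) := inferInstanceAs (Finite (C k))
      exact Subgroup.finiteIndex_ker _
  · intro h
    have hf1 : {i | θ i h ≠ 1}.Finite := hT h
    have hf2 : {k | (Multiplicative.toAdd (ψ h)) k ≠ 0}.Finite :=
      (DFinsupp.finite_support (Multiplicative.toAdd (ψ h)))
    refine ((hf1.image Sum.inl).union (hf2.image Sum.inr)).subset ?_
    rintro (i | k) hi
    · left
      refine ⟨i, ?_, rfl⟩
      simp only [Set.mem_ofPred_eq, MonoidHom.mem_ker] at hi ⊢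
      exact hi
    · right
      refine ⟨k, ?_, rfl⟩
      simp only [Set.mem_ofPred_eq, MonoidHom.mem_ker] at hi ⊢
      intro hk
      apply hi
      rw [hρ, hk]; rfl
  · intro h hne
    by_cases hh : ψ h = 1
    · have hc := (hker h).1 hh
      have hjne : j h ≠ 1 := by
        intro h1
        exact hne (hj (by rw [h1, map_one]))
      obtain ⟨i, hi⟩ := hN4 _ hc hjne
      refine ⟨Sum.inl i, ?_⟩
      simp only [MonoidHom.mem_ker]
      rw [hθc i h hc]
      intro h1
      exact hi ((QuotientGroup.eq_one_iff _).1 h1)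
    · have : ∃ k, (Multiplicative.toAdd (ψ h)) k ≠ 0 := by
        by_contra hcon
        push Not at hcon
        apply hh
        have : Multiplicative.toAdd (ψ h) = 0 := by
          ext k; exact hcon k
        rw [← ofAdd_toAdd (ψ h), this]; rfl
      obtain ⟨k, hk⟩ := this
      refine ⟨Sum.inr k, ?_⟩
      simp only [MonoidHom.mem_ker]
      intro h1
      apply hk
      rw [hρ] at h1
      exact h1

/-- Dietzmann's lemma: a periodic group with finite conjugacy classes is locally normal -/
theorem locally_normal {G : Type} [Group G] (htor : Monoid.IsTorsion G)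
    (hFC : ∀ g : G, {h : G | IsConj g h}.Finite) (s : Finset G) :
    ∃ R : Subgroup G, R.Normal ∧ (R : Set G).Finite ∧ (↑s : Set G) ⊆ R := by
  classical
  let X : Set G := ⋃ g ∈ s, {h : G | IsConj g h}
  have hX : X.Finite := Set.Finite.biUnion s.finite_toSet (fun g _ => hFC g)
  have hXconj : ∀ x ∈ X, ∀ g : G, g * x * g⁻¹ ∈ X := by
    intro x hx g
    simp only [X, Set.mem_iUnion, Set.mem_ofPred_eq] at hx ⊢
    obtain ⟨y, hy, hxy⟩ := hx
    exact ⟨y, hy, hxy.trans (isConj_iff.2 ⟨g, rfl⟩)⟩
  let R := Subgroup.closure X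
  have hRn : R.Normal := by
    refine ⟨?_⟩
    intro n hn g
    have h1 : (MulAut.conj g).toMonoidHom n ∈ (R.map (MulAut.conj g).toMonoidHom) :=
      Subgroup.mem_map_of_mem _ hn
    have h2 : R.map (MulAut.conj g).toMonoidHom ≤ R := by
      simp only [R]
      rw [MonoidHom.map_closure, Subgroup.closure_le]
      rintro _ ⟨x, hx, rfl⟩
      exact Subgroup.subset_closure (hXconj x hx g)
    exact h2 h1
  have hfg : Group.FG R := by
    have : R.FG := ⟨hX.toFinset, by simp [R]⟩
    exact (Group.fg_iff_subgroup_fg R).2 this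
  -- the centralizer of `X` has finite index
  have hcen : (⨅ x : X, Subgroup.centralizer {x.1}).FiniteIndex := by
    have : Finite X := hX
    refine Subgroup.finiteIndex_iInf ?_
    intro x
    have hfin : Finite (MulAction.orbit (ConjAct G) x.1) := by
      have := hFC x.1
      refine Set.Finite.subset this ?_
      rintro _ ⟨g, rfl⟩
      simp only [Set.mem_ofPred_eq]
      rw [isConj_iff]
      exact ⟨ConjAct.ofConjAct g, rfl⟩
    refine ⟨?_⟩
    have hst : (MulAction.stabilizer (ConjAct G) x.1).index ≠ 0 := by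
      rw [MulAction.index_stabilizer]
      have : (MulAction.orbit (ConjAct G) x.1).Finite := hfin
      exact ((Set.ncard_pos this).2 (MulAction.nonempty_orbit _)).ne'
    have e : (Subgroup.centralizer {x.1}).index = (MulAction.stabilizer (ConjAct G) x.1).index := by
      rw [ConjAct.stabilizer_eq_centralizer]
      rfl
    rw [e]; exact hst
  have hZ : ((⨅ x : X, Subgroup.centralizer {x.1}).subgroupOf R) ≤ Subgroup.center R := by
    intro z hz
    rw [Subgroup.mem_subgroupOf, Subgroup.mem_iInf] at hz
    rw [Subgroup.mem_center_iff]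
    intro y
    apply Subtype.ext
    simp only [Subgroup.coe_mul]
    obtain ⟨y, hy⟩ := y
    simp only
    induction hy using Subgroup.closure_induction with
    | mem y hy =>
      have := hz ⟨y, hy⟩
      rw [Subgroup.mem_centralizer_singleton_iff] at this
      exact this.symm
    | one => simp
    | mul a b _ _ ha hb => rw [mul_assoc, hb, ← mul_assoc, ha, mul_assoc]
    | inv a _ ha =>
      rw [inv_mul_eq_iff_eq_mul, ← mul_assoc, ha, mul_assoc, mul_inv_cancel, mul_one]
  have hZf : ((⨅ x : X, Subgroup.centralizer {x.1}).subgroupOf R).FiniteIndex := inferInstance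
  have hcf := Sep.finite_commutator _ hZ
  have hab : Finite (Abelianization R) := by
    have hfgA : Group.FG (Abelianization R) :=
      Group.fg_of_surjective (f := Abelianization.of) (QuotientGroup.mk'_surjective (commutator R))
    have htA : Monoid.IsTorsion (Abelianization R) := by
      intro a
      obtain ⟨r, rfl⟩ := QuotientGroup.mk_surjective a
      have hr : IsOfFinOrder r := by
        have := htor r.1
        exact (Submonoid.isOfFinOrder_coe (H := R.toSubmonoid) (x := r)).1 this
      exact (MonoidHom.isOfFinOrder (Abelianization.of) hr)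
    exact CommGroup.finite_of_fg_isMulTorsion (Abelianization R) htA
  have hRfin : Finite R := by
    have h1 : Finite (R ⧸ commutator R) := hab
    exact Finite.of_subgroup_quotient (commutator R)
  refine ⟨R, hRn, hRfin, ?_⟩
  intro x hx
  refine Subgroup.subset_closure ?_
  simp only [X, Set.mem_iUnion, Set.mem_ofPred_eq]
  exact ⟨x, hx, IsConj.refl x⟩

end Pool.Agent.Helper453.Embed
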