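import Mathlib

set_option autoImplicit false

namespace Pool.Agent.Helper453.Wreath

/-- the class of groups embeddable in a restricted direct product of finite groups -/
def SDF (P : Type) [Group P] : Prop :=
  ∃ (ι : Type) (F : ι → Type) (_ : ∀ i, Group (F i)) (_ : ∀ i, Finite (F i)),
        ∃ f : P →* ((i : ι) → F i),
          Function.Injective f ∧ ∀ g : P, Set.Finite {i : ι | f g i ≠ 1}

abbrev D : Type := Equiv.Perm (Fin 3)

theorem D_center (d : D) (h : ∀ e : D, d * e = e * d) : d = 1 := by
  revert d
  decide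

theorem comm_wreath {Q : Type} [Group Q] (e : RegularWreathProduct D Q)
    (h : ∀ s : Q → D, e * ⟨s, 1⟩ = ⟨s, 1⟩ * e) : e = 1 := by
  have h1 : ∀ x, e.left x = 1 := by
    intro x
    apply D_center
    intro d
    have h2 := congrArg RegularWreathProduct.left (h (fun _ => d))
    have h3 := congrFun h2 x
    simpa using h3
  have h2 : e.right = 1 := by
    classical
    by_contra hne
    obtain ⟨d, hd⟩ : ∃ d : D, d ≠ 1 := ⟨Equiv.swap 0 1, by decide⟩
    have h3 := congrArg RegularWreathProduct.left (h (fun x => if x = 1 then d else 1))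
    have h4 := congrFun h3 1
    simp only [RegularWreathProduct.mul_left, Pi.mul_apply, mul_one, h1, one_mul, inv_eq_one,
      if_neg hne, if_true] at h4
    exact hd h4.symm
  apply RegularWreathProduct.ext
  · funext x; rw [h1 x]; rfl
  · rw [h2]; rfl

theorem wrap {P : Type} [Group P] {I : Type} (N : I → Subgroup P) [hN1 : ∀ i, (N i).Normal]
    (hN2 : ∀ i, (N i).FiniteIndex) (hN3 : ∀ g : P, {i | g ∉ N i}.Finite)
    (hcount : {g : P | ∀ i, g ∈ N i}.Countable)
    (htor : ∀ g : P, IsOfFinOrder g)
    (hFC : ∀ g : P, Set.Finite {h : P | IsConj g h})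
    (hRF : ∀ g : P, g ≠ 1 → ∃ N : Subgroup P, N.Normal ∧ N.FiniteIndex ∧ g ∉ N)
    (hnot : ¬ SDF P) :
    ∃ (G : Type) (_ : Group G),
      (∀ g : G, g ≠ 1 → ∃ N : Subgroup G, N.Normal ∧ N.index ≠ 0 ∧ g ∉ N) ∧
      (∀ g : G, IsOfFinOrder g) ∧
      (∀ g : G, Set.Finite {h : G | IsConj g h}) ∧
      Countable (Subgroup.center G) ∧ ¬ SDF G := by
  classical
  let E : I → Type := fun i => RegularWreathProduct D (P ⧸ N i)
  let _ : ∀ i, Group (E i) := fun i => inferInstanceAs (Group (RegularWreathProduct D (P ⧸ N i)))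
  have hfinE : ∀ i, Finite (E i) := by
    intro i
    have := hN2 i
    have : Finite (P ⧸ N i) := Subgroup.finite_quotient_of_finiteIndex
    exact Finite.of_equiv _ (RegularWreathProduct.equivProd D (P ⧸ N i)).symm
  let G : Subgroup (P × ((i : I) → E i)) :=
    { carrier := {p | (∀ i, (p.2 i).right = (QuotientGroup.mk p.1 : P ⧸ N i)) ∧
        {i | p.2 i ≠ 1}.Finite}
      mul_mem' := by
        rintro ⟨a, e⟩ ⟨b, f⟩ ⟨ha, ha'⟩ ⟨hb, hb'⟩
        refine ⟨?_, ?_⟩
        · intro i
          have h1 := ha i
          have h2 := hb i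
          simp only at h1 h2
          show (e i * f i).right = _
          rw [RegularWreathProduct.mul_right, h1, h2]; rfl
        · refine (ha'.union hb').subset ?_
          intro i hi
          by_contra hcon
          simp only [Set.mem_union, Set.mem_ofPred_eq, not_or, not_not] at hcon hi
          apply hi
          show e i * f i = 1
          rw [hcon.1, hcon.2, one_mul]
      one_mem' := ⟨fun i => rfl, by simp⟩
      inv_mem' := by
        rintro ⟨a, e⟩ ⟨ha, ha'⟩
        refine ⟨?_, ?_⟩
        · intro i
          have h1 := ha i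
          simp only at h1
          show ((e i)⁻¹).right = _
          rw [RegularWreathProduct.inv_right, h1]; rfl
        · refine ha'.subset ?_
          intro i hi
          simp only [Set.mem_ofPred_eq] at hi ⊢
          intro h; apply hi
          show (e i)⁻¹ = 1
          rw [h, inv_one] }
  have hGmem : ∀ p, p ∈ G ↔ (∀ i, (p.2 i).right = (QuotientGroup.mk p.1 : P ⧸ N i)) ∧
        {i | p.2 i ≠ 1}.Finite := fun p => Iff.rfl
  -- finiteness of supported functions
  have hfinS : ∀ S : Set I, S.Finite → {e : (i : I) → E i | ∀ i, i ∉ S → e i = 1}.Finite := by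
    intro S hS
    have : Finite S := hS
    have : Finite ((i : S) → E i.1) := Pi.finite
    refine Set.Finite.of_finite_image (f := fun e => fun i : S => e i.1) (Set.toFinite _) ?_
    intro e he f hf hef
    funext i
    by_cases hi : i ∈ S
    · exact congrFun hef ⟨i, hi⟩
    · rw [he i hi, hf i hi]
  refine ⟨G, inferInstance, ?_, ?_, ?_, ?_, ?_⟩
  · intro g hg
    by_cases hg1 : g.1.1 = 1
    · have hg2 : g.1.2 ≠ 1 := by
        intro h; apply hg; apply Subtype.ext; exact Prod.ext hg1 h
      obtain ⟨i, hi⟩ := Function.ne_iff.1 hg2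
      let f : G →* E i := (Pi.evalMonoidHom _ i).comp ((MonoidHom.snd _ _).comp G.subtype)
      refine ⟨f.ker, MonoidHom.normal_ker f, (Subgroup.finiteIndex_ker f).index_ne_zero, ?_⟩
      intro h
      exact hi (MonoidHom.mem_ker.1 h)
    · obtain ⟨M, hM1, hM2, hM3⟩ := hRF g.1.1 hg1
      have : Finite (P ⧸ M) := Subgroup.finite_quotient_of_finiteIndex
      let f : G →* P ⧸ M := (QuotientGroup.mk' M).comp ((MonoidHom.fst _ _).comp G.subtype)
      refine ⟨f.ker, MonoidHom.normal_ker f, (Subgroup.finiteIndex_ker f).index_ne_zero, ?_⟩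
      intro h
      exact hM3 ((QuotientGroup.eq_one_iff _).1 (MonoidHom.mem_ker.1 h))
  · intro g
    obtain ⟨n, hn, hn'⟩ := isOfFinOrder_iff_pow_eq_one.1 (htor g.1.1)
    have hS := g.2.2
    let K : Subgroup ((i : I) → E i) :=
      { carrier := {e | ∀ i, i ∉ {i | g.1.2 i ≠ 1} → e i = 1}
        mul_mem' := by
          intro a b ha hb i hi
          rw [Pi.mul_apply, ha i hi, hb i hi, one_mul]
        one_mem' := fun i _ => rfl
        inv_mem' := by
          intro a ha i hi
          rw [Pi.inv_apply, ha i hi, inv_one] }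
    have hK : Finite K := hfinS _ hS
    have hgK : g.1.2 ∈ K := by
      intro i hi
      simp only [Set.mem_ofPred_eq, not_not] at hi
      exact hi
    have h2 : IsOfFinOrder (⟨g.1.2, hgK⟩ : K) := isOfFinOrder_of_finite _
    have h3 : IsOfFinOrder g.1.2 := (Subgroup.subtype K).isOfFinOrder h2
    obtain ⟨m, hm, hm'⟩ := isOfFinOrder_iff_pow_eq_one.1 h3
    rw [isOfFinOrder_iff_pow_eq_one]
    refine ⟨n * m, Nat.mul_pos hn hm, ?_⟩
    apply Subtype.ext
    apply Prod.ext
    · show g.1.1 ^ (n * m) = 1
      rw [pow_mul, hn', one_pow]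
    · show g.1.2 ^ (n * m) = 1
      rw [mul_comm, pow_mul, hm', one_pow]
  · intro g
    have hS := g.2.2
    have hfin : ({h : P | IsConj g.1.1 h} ×ˢ
        {e : (i : I) → E i | ∀ i, i ∉ {i | g.1.2 i ≠ 1} → e i = 1}).Finite :=
      (hFC g.1.1).prod (hfinS _ hS)
    refine Set.Finite.of_finite_image (f := Subtype.val) (hfin.subset ?_)
      Subtype.val_injective.injOn
    rintro _ ⟨h, hh, rfl⟩
    simp only [Set.mem_ofPred_eq] at hh
    rw [isConj_iff] at hh
    obtain ⟨c, rfl⟩ := hh
    refine ⟨?_, ?_⟩
    · show IsConj g.1.1 (c.1.1 * g.1.1 * (c.1.1)⁻¹)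
      rw [isConj_iff]; exact ⟨_, rfl⟩
    · intro i hi
      simp only [Set.mem_ofPred_eq, not_not] at hi
      show c.1.2 i * g.1.2 i * (c.1.2 i)⁻¹ = 1
      rw [hi, mul_one, mul_inv_cancel]
  · -- the centre
    have hcen : ∀ z : Subgroup.center G, (∀ i, z.1.1.2 i = 1) ∧ ∀ i, z.1.1.1 ∈ N i := by
      intro z
      have h1 : ∀ i, z.1.1.2 i = 1 := by
        intro i
        apply comm_wreath
        intro s
        let u : P × ((i : I) → E i) := (1, Pi.mulSingle i (⟨s, 1⟩ : E i))
        have hu : u ∈ G := by
          refine ⟨?_, ?_⟩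
          · intro j
            by_cases hj : j = i
            · subst hj
              show (Pi.mulSingle j (⟨s, 1⟩ : E j) j : E j).right = _
              rw [Pi.mulSingle_eq_same]; rfl
            · show (Pi.mulSingle i (⟨s, 1⟩ : E i) j : E j).right = _
              rw [Pi.mulSingle_eq_of_ne hj]; rfl
          · refine (Set.finite_singleton i).subset ?_
            intro j hj
            simp only [Set.mem_ofPred_eq, u] at hj
            by_contra hcon
            simp only [Set.mem_singleton_iff] at hcon
            exact hj (Pi.mulSingle_eq_of_ne hcon _)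
        have h2 := (Subgroup.mem_center_iff.1 z.2) ⟨u, hu⟩
        have h3 := congrArg (fun g : G => g.1.2 i) h2
        have h4 : u.2 i * z.1.1.2 i = z.1.1.2 i * u.2 i := h3
        have h5 : u.2 i = (⟨s, 1⟩ : E i) := Pi.mulSingle_eq_same i _
        rw [h5] at h4
        exact h4.symm
      refine ⟨h1, ?_⟩
      intro i
      have h2 := z.1.2.1 i
      rw [h1 i] at h2
      exact (QuotientGroup.eq_one_iff _).1 h2.symm
    have hc : Countable {g : P | ∀ i, g ∈ N i} := hcount
    refine Function.Injective.countable (f := fun z : Subgroup.center G =>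
      (⟨z.1.1.1, (hcen z).2⟩ : {g : P | ∀ i, g ∈ N i})) ?_
    intro z w hzw
    have h1 : z.1.1.1 = w.1.1.1 := congrArg Subtype.val hzw
    apply Subtype.ext
    apply Subtype.ext
    refine Prod.ext h1 ?_
    funext i
    rw [(hcen z).1 i, (hcen w).1 i]
  · rintro ⟨ι, F, hFg, hFf, f, hf, hf'⟩
    apply hnot
    let j : P →* G :=
      { toFun := fun g => ⟨(g, fun i => (RegularWreathProduct.inl
          (QuotientGroup.mk g : P ⧸ N i) : RegularWreathProduct D (P ⧸ N i))), ⟨fun i => rfl, by
            refine (hN3 g).subset ?_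
            intro i hi
            simp only [Set.mem_ofPred_eq] at hi ⊢
            intro hg
            apply hi
            rw [(QuotientGroup.eq_one_iff g).2 hg, map_one]⟩⟩
        map_one' := by
          apply Subtype.ext
          apply Prod.ext
          · rfl
          · funext i
            show RegularWreathProduct.inl (QuotientGroup.mk (1 : P) : P ⧸ N i) = 1
            rw [QuotientGroup.mk_one, map_one]
        map_mul' := by
          intro a b
          apply Subtype.ext
          apply Prod.ext
          · rfl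
          · funext i
            show RegularWreathProduct.inl (QuotientGroup.mk (a * b) : P ⧸ N i) = _
            rw [QuotientGroup.mk_mul, map_mul]; rfl }
    refine ⟨ι, F, hFg, hFf, f.comp j, ?_, fun g => hf' (j g)⟩
    rw [MonoidHom.coe_comp]
    refine hf.comp ?_
    intro a b hab
    exact congrArg (fun g : G => g.1.1) hab

end Pool.Agent.Helper453.Wreath
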