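import Mathlib
import Pool.Agent.Helper453.Wreath

set_option autoImplicit false

namespace Pool.Agent.Helper453.HeisG

/-- the class two group attached to a biadditive map -/
@[ext]
structure Heis {X Y C : Type} [AddCommGroup X] [AddCommGroup Y] [AddCommGroup C]
    (β : X →+ Y →+ C) where
  x : X
  y : Y
  c : C

namespace Heis

variable {X Y C : Type} [AddCommGroup X] [AddCommGroup Y] [AddCommGroup C] {β : X →+ Y →+ C}

instance : Mul (Heis β) := ⟨fun a b => ⟨a.x + b.x, a.y + b.y, a.c + b.c + β a.x b.y⟩⟩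
instance : One (Heis β) := ⟨⟨0, 0, 0⟩⟩
instance : Inv (Heis β) := ⟨fun a => ⟨-a.x, -a.y, -a.c + β a.x a.y⟩⟩

@[simp] theorem mul_x (a b : Heis β) : (a * b).x = a.x + b.x := rfl
@[simp] theorem mul_y (a b : Heis β) : (a * b).y = a.y + b.y := rfl
@[simp] theorem mul_c (a b : Heis β) : (a * b).c = a.c + b.c + β a.x b.y := rfl
@[simp] theorem one_x : (1 : Heis β).x = 0 := rfl
@[simp] theorem one_y : (1 : Heis β).y = 0 := rfl
@[simp] theorem one_c : (1 : Heis β).c = 0 := rfl
@[simp] theorem inv_x (a : Heis β) : (a⁻¹).x = -a.x := rfl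
@[simp] theorem inv_y (a : Heis β) : (a⁻¹).y = -a.y := rfl
@[simp] theorem inv_c (a : Heis β) : (a⁻¹).c = -a.c + β a.x a.y := rfl

instance : Group (Heis β) :=
  Group.ofLeftAxioms
    (by
      intro a b c
      ext
      · simp [add_assoc]
      · simp [add_assoc]
      · simp only [mul_c, mul_x, mul_y, map_add, AddMonoidHom.add_apply]
        abel)
    (by intro a; ext <;> simp)
    (by
      intro a
      ext
      · simp
      · simp
      · simp only [mul_c, inv_c, inv_x, map_neg, AddMonoidHom.neg_apply, one_c]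
        abel)

theorem conj_eq (a h : Heis β) : h * a * h⁻¹ = ⟨a.x, a.y, a.c + β h.x a.y - β a.x h.y⟩ := by
  ext
  · simp only [mul_x, inv_x]; abel
  · simp only [mul_y, inv_y]; abel
  · simp only [mul_c, mul_x, inv_c, inv_y, map_add, map_neg, AddMonoidHom.add_apply]
    abel

/-- the central subgroup, as a homomorphism -/
def cen : Multiplicative C →* Heis β where
  toFun c := ⟨0, 0, Multiplicative.toAdd c⟩
  map_one' := rfl
  map_mul' a b := by ext <;> simp

def hx : Heis β →* Multiplicative X where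
  toFun a := Multiplicative.ofAdd a.x
  map_one' := rfl
  map_mul' a b := rfl

def hy : Heis β →* Multiplicative Y where
  toFun a := Multiplicative.ofAdd a.y
  map_one' := rfl
  map_mul' a b := rfl

theorem pow_x (a : Heis β) (n : ℕ) : (a ^ n).x = n • a.x := by
  have := map_pow hx a n
  exact this

theorem pow_y (a : Heis β) (n : ℕ) : (a ^ n).y = n • a.y := by
  have := map_pow hy a n
  exact this

theorem torsion (hX : ∀ x : X, IsOfFinAddOrder x) (hY : ∀ x : Y, IsOfFinAddOrder x)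
    (hC : ∀ x : C, IsOfFinAddOrder x) (a : Heis β) : IsOfFinOrder a := by
  obtain ⟨n, hn, hn'⟩ := (isOfFinAddOrder_iff_nsmul_eq_zero).1 (hX a.x)
  obtain ⟨m, hm, hm'⟩ := (isOfFinAddOrder_iff_nsmul_eq_zero).1 (hY a.y)
  obtain ⟨k, hk, hk'⟩ := (isOfFinAddOrder_iff_nsmul_eq_zero).1 (hC (a ^ (n * m)).c)
  rw [isOfFinOrder_iff_pow_eq_one]
  refine ⟨n * m * k, by positivity, ?_⟩
  have h1 : a ^ (n * m) = cen (Multiplicative.ofAdd (a ^ (n * m)).c) := by
    ext
    · rw [pow_x, mul_comm, mul_smul, hn', smul_zero]; rfl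
    · rw [pow_y, mul_smul, hm', smul_zero]; rfl
    · rfl
  rw [pow_mul, h1, ← map_pow, ← ofAdd_nsmul, hk']
  rfl

theorem fc (h1 : ∀ x, (Set.range (fun y => β x y)).Finite)
    (h2 : ∀ y, (Set.range (fun x => β x y)).Finite) (a : Heis β) :
    {b : Heis β | IsConj a b}.Finite := by
  have hfin := ((h2 a.y).prod (h1 a.x)).image
    (fun p : C × C => (⟨a.x, a.y, a.c + p.1 - p.2⟩ : Heis β))
  refine hfin.subset ?_
  intro b hb
  simp only [Set.mem_ofPred_eq] at hb
  rw [isConj_iff] at hb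
  obtain ⟨h, rfl⟩ := hb
  rw [conj_eq]
  exact ⟨(β h.x a.y, β a.x h.y), ⟨⟨h.x, rfl⟩, ⟨h.y, rfl⟩⟩, rfl⟩

theorem comm_eq (a b : X) (c d : Y) :
    (⟨a, 0, 0⟩ : Heis β) * ⟨0, d, 0⟩ = cen (Multiplicative.ofAdd (β a d)) *
      (⟨0, d, 0⟩ * ⟨a, 0, 0⟩) := by
  ext <;> simp [cen]

end Heis

end Pool.Agent.Helper453.HeisG
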