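import Mathlib
import Pool.Agent.Helper453.Heis

set_option autoImplicit false

namespace Pool.Agent.Helper453.Ex

open Pool.Agent.Helper453.HeisG
open Classical

noncomputable section

/-- labels: a set of natural numbers and a multiplicity label -/
abbrev Lam : Type := Set ℕ × Set ℕ
abbrev I : Type := Lam × ℕ
abbrev X : Type := Π₀ i : I, ZMod (2 ^ (i.2 + 1))
abbrev Bt : Type := Π₀ k : ℕ, ZMod (2 ^ (k + 1))
abbrev C : Type := X × Bt

def nx (i : I) : I := (i.1, i.2 + 1)
def pv (i : I) : I := (i.1, i.2 - 1)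

/-- value of the basic commutators -/
def γ (i : I) : C :=
  (DFinsupp.single i 1 - 2 • DFinsupp.single (nx i) 1,
    if i.2 ∈ i.1.1 then - DFinsupp.single i.2 1 else 0)

theorem γ_order (i : I) : ((2 : ℕ) ^ (i.2 + 1)) • γ i = 0 := by
  have h1 : ((2 : ℕ) ^ (i.2 + 1)) • (DFinsupp.single i 1 : X) = 0 := by
    rw [← DFinsupp.single_smul, nsmul_one, ZMod.natCast_self, DFinsupp.single_zero]
  have h2 : ((2 : ℕ) ^ (i.2 + 1)) • ((2 : ℕ) • (DFinsupp.single (nx i) 1 : X)) = 0 := by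
    rw [smul_smul, ← pow_succ, ← DFinsupp.single_smul, nsmul_one]
    have : ((2 ^ (i.2 + 1 + 1) : ℕ) : ZMod (2 ^ ((nx i).2 + 1))) = 0 := ZMod.natCast_self _
    rw [this, DFinsupp.single_zero]
  have h3 : ((2 : ℕ) ^ (i.2 + 1)) • (DFinsupp.single i.2 1 : Bt) = 0 := by
    rw [← DFinsupp.single_smul, nsmul_one, ZMod.natCast_self, DFinsupp.single_zero]
  unfold γ
  apply Prod.ext
  · rw [Prod.smul_fst, smul_sub, h1, h2, sub_zero]; rfl
  · rw [Prod.smul_snd]
    by_cases h : i.2 ∈ i.1.1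
    · simp only [if_pos h]
      rw [smul_neg, h3, neg_zero]; rfl
    · simp only [if_neg h, smul_zero]; rfl

def m (i : I) : ZMod (2 ^ (i.2 + 1)) →+ C :=
  ZMod.lift (2 ^ (i.2 + 1)) ⟨zmultiplesHom C (γ i), by
    simp only [zmultiplesHom_apply, natCast_zsmul]
    exact γ_order i⟩

theorem m_int (i : I) (n : ℤ) : m i (n : ZMod (2 ^ (i.2 + 1))) = n • γ i := by
  unfold m
  rw [ZMod.lift_coe]
  rfl

theorem m_one (i : I) : m i 1 = γ i := by
  have := m_int i 1
  simpa using this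

def μ (i : I) : ZMod (2 ^ (i.2 + 1)) →+ (X →+ C) :=
  AddMonoidHom.mk' (fun a => (m i).comp ((AddMonoidHom.mulLeft a).comp
    (DFinsupp.evalAddMonoidHom i))) (by
      intro a b
      refine AddMonoidHom.ext (fun y => ?_)
      show m i ((a + b) * y i) = m i (a * y i) + m i (b * y i)
      rw [add_mul, map_add])

theorem μ_apply (i : I) (a : ZMod (2 ^ (i.2 + 1))) (y : X) : μ i a y = m i (a * y i) := rfl

def β : X →+ X →+ C := DFinsupp.liftAddHom μ

theorem β_single (i : I) (a : ZMod (2 ^ (i.2 + 1))) (y : X) :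
    β (DFinsupp.single i a) y = m i (a * y i) := by
  unfold β
  rw [DFinsupp.liftAddHom_apply_single]
  rfl

theorem β_apply (x y : X) : β x y = ∑ i ∈ x.support, m i (x i * y i) := by
  unfold β
  rw [DFinsupp.liftAddHom_apply, DFinsupp.sumAddHom_apply, DFinsupp.sum,
    AddMonoidHom.finsetSum_apply]
  rfl

theorem β_apply' (x y : X) : β x y = ∑ i ∈ y.support, m i (x i * y i) := by
  rw [β_apply]
  have h1 : ∑ i ∈ x.support, m i (x i * y i) = ∑ i ∈ x.support ∪ y.support, m i (x i * y i) := by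
    refine Finset.sum_subset Finset.subset_union_left ?_
    intro i _ hi
    rw [DFinsupp.notMem_support_iff.1 hi, zero_mul, map_zero]
  have h2 : ∑ i ∈ y.support, m i (x i * y i) = ∑ i ∈ x.support ∪ y.support, m i (x i * y i) := by
    refine Finset.sum_subset Finset.subset_union_right ?_
    intro i _ hi
    rw [DFinsupp.notMem_support_iff.1 hi, mul_zero, map_zero]
  rw [h1, h2]

instance (k : ℕ) : NeZero (2 ^ (k + 1)) := ⟨by positivity⟩

theorem range1 (x : X) : (Set.range (fun y => β x y)).Finite := by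
  have : Finite ((i : x.support) → ZMod (2 ^ (i.1.2 + 1))) := Pi.finite
  refine (Set.finite_range (fun v : (i : x.support) → ZMod (2 ^ (i.1.2 + 1)) =>
    ∑ i : x.support, m i.1 (x i.1 * v i))).subset ?_
  rintro _ ⟨y, rfl⟩
  refine ⟨fun i => y i.1, ?_⟩
  simp only
  rw [β_apply]
  exact Finset.sum_coe_sort x.support (fun i => m i (x i * y i))

theorem range2 (y : X) : (Set.range (fun x => β x y)).Finite := by
  have : Finite ((i : y.support) → ZMod (2 ^ (i.1.2 + 1))) := Pi.finite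
  refine (Set.finite_range (fun v : (i : y.support) → ZMod (2 ^ (i.1.2 + 1)) =>
    ∑ i : y.support, m i.1 (v i * y i.1))).subset ?_
  rintro _ ⟨x, rfl⟩
  refine ⟨fun i => x i.1, ?_⟩
  simp only
  rw [β_apply']
  exact Finset.sum_coe_sort y.support (fun i => m i (x i * y i))

/-- the group -/
abbrev P : Type := Heis β

theorem tor_dfin {J : Type} (o : J → ℕ) [∀ j, NeZero (o j)] (x : Π₀ j : J, ZMod (o j)) :
    IsOfFinAddOrder x := by
  induction x using DFinsupp.induction with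
  | h0 => exact IsOfFinAddOrder.zero
  | ha j b f _ _ ih =>
    refine IsOfFinAddOrder.add ?_ ih
    exact (DFinsupp.singleAddHom (fun j : J => ZMod (o j)) j).isOfFinAddOrder
      (isOfFinAddOrder_of_finite b)

theorem P_torsion (g : P) : IsOfFinOrder g := by
  have hX : ∀ x : X, IsOfFinAddOrder x := fun x => tor_dfin _ x
  have hB : ∀ x : Bt, IsOfFinAddOrder x := fun x => tor_dfin _ x
  refine Heis.torsion hX hX ?_ g
  rintro ⟨a, b⟩
  obtain ⟨n, hn, hn'⟩ := (isOfFinAddOrder_iff_nsmul_eq_zero).1 (hX a)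
  obtain ⟨k, hk, hk'⟩ := (isOfFinAddOrder_iff_nsmul_eq_zero).1 (hB b)
  rw [isOfFinAddOrder_iff_nsmul_eq_zero]
  refine ⟨n * k, Nat.mul_pos hn hk, ?_⟩
  apply Prod.ext
  · show (n * k) • a = 0
    rw [mul_comm, mul_smul, hn', smul_zero]
  · show (n * k) • b = 0
    rw [mul_smul, hk', smul_zero]

theorem P_fc (g : P) : {h : P | IsConj g h}.Finite := Heis.fc range1 range2 g

section NS

variable {A : Type} [AddCommGroup A] [Finite A] (S : Finset I) (α : C →+ A)
  (hα : ∀ i, i ∉ S → α (γ i) = 0)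

include hα

omit [Finite A] in
theorem α_m (i : I) (hi : i ∉ S) (r : ZMod (2 ^ (i.2 + 1))) : α (m i r) = 0 := by
  obtain ⟨n, rfl⟩ := ZMod.intCast_surjective r
  rw [m_int, map_zsmul, hα i hi, smul_zero]

omit [Finite A] in
theorem α_β (x y : X) (h : ∀ i ∈ S, x i * y i = 0) : α (β x y) = 0 := by
  rw [β_apply, map_sum]
  refine Finset.sum_eq_zero ?_
  intro i _
  by_cases hi : i ∈ S
  · rw [h i hi, map_zero, map_zero]
  · exact α_m S α hα i hi _

def NS : Subgroup P where
  carrier := {g | (∀ i ∈ S, g.x i = 0) ∧ (∀ i ∈ S, g.y i = 0) ∧ α g.c = 0}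
  mul_mem' := by
    rintro a b ⟨ha1, ha2, ha3⟩ ⟨hb1, hb2, hb3⟩
    refine ⟨?_, ?_, ?_⟩
    · intro i hi
      rw [Heis.mul_x, DFinsupp.add_apply, ha1 i hi, hb1 i hi, add_zero]
    · intro i hi
      rw [Heis.mul_y, DFinsupp.add_apply, ha2 i hi, hb2 i hi, add_zero]
    · rw [Heis.mul_c, map_add, map_add, ha3, hb3, add_zero, zero_add]
      exact α_β S α hα _ _ (fun i hi => by rw [ha1 i hi, zero_mul])
  one_mem' := ⟨fun _ _ => rfl, fun _ _ => rfl, by simp⟩
  inv_mem' := by
    rintro a ⟨ha1, ha2, ha3⟩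
    refine ⟨?_, ?_, ?_⟩
    · intro i hi
      rw [Heis.inv_x, DFinsupp.neg_apply, ha1 i hi, neg_zero]
    · intro i hi
      rw [Heis.inv_y, DFinsupp.neg_apply, ha2 i hi, neg_zero]
    · rw [Heis.inv_c, map_add, map_neg, ha3, neg_zero, zero_add]
      exact α_β S α hα _ _ (fun i hi => by rw [ha1 i hi, zero_mul])

omit [Finite A] in
theorem mem_NS (g : P) : g ∈ NS S α hα ↔
    (∀ i ∈ S, g.x i = 0) ∧ (∀ i ∈ S, g.y i = 0) ∧ α g.c = 0 := Iff.rfl

omit [Finite A] in
theorem NS_normal : (NS S α hα).Normal := by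
  refine ⟨?_⟩
  rintro a ⟨ha1, ha2, ha3⟩ h
  rw [Heis.conj_eq]
  refine ⟨ha1, ha2, ?_⟩
  simp only [map_add, map_sub]
  rw [ha3, α_β S α hα _ _ (fun i hi => by rw [ha2 i hi, mul_zero]),
    α_β S α hα _ _ (fun i hi => by rw [ha1 i hi, zero_mul])]
  simp

theorem NS_fi : (NS S α hα).FiniteIndex := by
  have hf : Finite ((i : S) → ZMod (2 ^ (i.1.2 + 1))) := Pi.finite
  let Ψ : P → ((i : S) → ZMod (2 ^ (i.1.2 + 1))) × ((i : S) → ZMod (2 ^ (i.1.2 + 1))) × A :=
    fun g => (fun i => g.x i.1, fun i => g.y i.1, α g.c)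
  have hΨ : ∀ g h, Ψ g = Ψ h → (QuotientGroup.mk g : P ⧸ NS S α hα) = QuotientGroup.mk h := by
    intro g h hgh
    rw [QuotientGroup.eq]
    have h1 : ∀ i ∈ S, g.x i = h.x i := fun i hi => congrFun (congrArg Prod.fst hgh) ⟨i, hi⟩
    have h2 : ∀ i ∈ S, g.y i = h.y i :=
      fun i hi => congrFun (congrArg (fun p => p.2.1) hgh) ⟨i, hi⟩
    have h3 : α g.c = α h.c := congrArg (fun p => p.2.2) hgh
    refine ⟨?_, ?_, ?_⟩
    · intro i hi
      rw [Heis.mul_x, Heis.inv_x, DFinsupp.add_apply, DFinsupp.neg_apply, h1 i hi]; simp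
    · intro i hi
      rw [Heis.mul_y, Heis.inv_y, DFinsupp.add_apply, DFinsupp.neg_apply, h2 i hi]; simp
    · rw [Heis.mul_c, Heis.inv_c, Heis.inv_x]
      have e : -g.c + β g.x g.y + h.c + β (-g.x) h.y = -g.c + h.c + β g.x (g.y - h.y) := by
        rw [map_neg, AddMonoidHom.neg_apply, map_sub]; abel
      rw [e, map_add, map_add, map_neg, h3,
        α_β S α hα _ _ (fun i hi => by rw [DFinsupp.sub_apply, h2 i hi, sub_self, mul_zero])]
      simp
  have : Finite (P ⧸ NS S α hα) := by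
    refine Finite.of_surjective (fun q : Set.range Ψ =>
      (QuotientGroup.mk q.2.choose : P ⧸ NS S α hα)) ?_
    intro q
    obtain ⟨g, rfl⟩ := QuotientGroup.mk_surjective q
    refine ⟨⟨Ψ g, g, rfl⟩, ?_⟩
    simp only
    apply hΨ
    exact (⟨g, rfl⟩ : ∃ g', Ψ g' = Ψ g).choose_spec
  exact Subgroup.finiteIndex_of_finite_quotient

end NS

/-- coordinates of `C` -/
def zc (i : I) : C →+ ZMod (2 ^ (i.2 + 1)) :=
  (DFinsupp.evalAddMonoidHom i).comp (AddMonoidHom.fst _ _)

theorem zc_apply (i : I) (c : C) : zc i c = c.1 i := rfl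

theorem zc_γ (i j : I) (h1 : j ≠ i) (h2 : nx j ≠ i) : zc i (γ j) = 0 := by
  rw [zc_apply]
  unfold γ
  simp only [DFinsupp.sub_apply, DFinsupp.smul_apply]
  rw [DFinsupp.single_eq_of_ne (Ne.symm h1), DFinsupp.single_eq_of_ne (Ne.symm h2)]
  simp

def S (i : I) : Finset I := {i, pv i}

theorem zc_ok (i : I) : ∀ j, j ∉ S i → zc i (γ j) = 0 := by
  intro j hj
  simp only [S, Finset.mem_insert, Finset.mem_singleton, not_or] at hj
  refine zc_γ i j hj.1 ?_
  intro h
  apply hj.2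
  rw [← h]
  simp [pv, nx]

def N (i : I) : Subgroup P := NS (S i) (zc i) (zc_ok i)

theorem mem_N (i : I) (g : P) : g ∈ N i ↔
    (∀ j ∈ S i, g.x j = 0) ∧ (∀ j ∈ S i, g.y j = 0) ∧ g.c.1 i = 0 := Iff.rfl

theorem N_normal (i : I) : (N i).Normal := NS_normal _ _ _
theorem N_fi (i : I) : (N i).FiniteIndex := NS_fi _ _ _

theorem N_pf (g : P) : {i | g ∉ N i}.Finite := by
  let F : Finset I := g.x.support ∪ g.y.support ∪ g.c.1.support
  have hfin : ((↑F : Set I) ∪ nx '' (↑F : Set I)).Finite :=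
    F.finite_toSet.union (F.finite_toSet.image _)
  refine hfin.subset ?_
  intro i hi
  by_contra hcon
  apply hi
  simp only [Set.mem_union, not_or] at hcon
  have h1 : ∀ j ∈ S i, j ∉ F := by
    intro j hj
    simp only [S, Finset.mem_insert, Finset.mem_singleton] at hj
    rcases hj with rfl | rfl
    · exact hcon.1
    · intro hF
      rcases Nat.eq_zero_or_pos i.2 with h0 | h0
      · apply hcon.1
        have : pv i = i := by
          unfold pv; apply Prod.ext
          · rfl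
          · simp only; omega
        rw [this] at hF; exact hF
      · apply hcon.2
        refine ⟨pv i, hF, ?_⟩
        unfold pv nx; apply Prod.ext
        · rfl
        · simp only; omega
  have hF : ∀ j, j ∉ F → g.x j = 0 ∧ g.y j = 0 ∧ g.c.1 j = 0 := by
    intro j hj
    simp only [F, Finset.mem_union, not_or] at hj
    exact ⟨DFinsupp.notMem_support_iff.1 hj.1.1, DFinsupp.notMem_support_iff.1 hj.1.2,
      DFinsupp.notMem_support_iff.1 hj.2⟩
  rw [mem_N]
  exact ⟨fun j hj => (hF j (h1 j hj)).1, fun j hj => (hF j (h1 j hj)).2.1,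
    (hF i hcon.1).2.2⟩

theorem N_count : {g : P | ∀ i, g ∈ N i}.Countable := by
  have : Countable Bt := inferInstance
  refine (Set.countable_range (fun b : Bt => (⟨0, 0, (0, b)⟩ : P))).mono ?_
  intro g hg
  refine ⟨g.c.2, ?_⟩
  have h1 : ∀ i, i ∈ S i := fun i => by simp [S]
  have hx : g.x = 0 := by
    ext1 i; exact ((mem_N i g).1 (hg i)).1 i (h1 i)
  have hy : g.y = 0 := by
    ext1 i; exact ((mem_N i g).1 (hg i)).2.1 i (h1 i)
  have hc : g.c.1 = 0 := by
    ext1 i; exact ((mem_N i g).1 (hg i)).2.2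
  apply Heis.ext
  · exact hx.symm
  · exact hy.symm
  · exact Prod.ext hc.symm rfl

/-- the coefficient homomorphisms -/
def al0 (k : ℕ) (i : I) : ZMod (2 ^ (i.2 + 1)) →+ ZMod (2 ^ (k + 1)) :=
  if h : i.2 ≤ k ∧ k ∈ i.1.1 then
    ZMod.lift (2 ^ (i.2 + 1)) ⟨zmultiplesHom _ ((2 : ZMod (2 ^ (k + 1))) ^ (k - i.2)), by
      simp only [zmultiplesHom_apply, natCast_zsmul]
      rw [nsmul_eq_mul]
      push_cast
      rw [← pow_add]
      have h2 : i.2 + 1 + (k - i.2) = k + 1 := by omega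
      rw [h2]
      have := ZMod.natCast_self (2 ^ (k + 1))
      push_cast at this
      exact this⟩
  else 0

theorem al0_one (k : ℕ) (i : I) :
    al0 k i 1 = if i.2 ≤ k ∧ k ∈ i.1.1 then (2 : ZMod (2 ^ (k + 1))) ^ (k - i.2) else 0 := by
  unfold al0
  by_cases h : i.2 ≤ k ∧ k ∈ i.1.1
  · rw [dif_pos h, if_pos h]
    have h2 := ZMod.lift_coe (2 ^ (i.2 + 1))
      (⟨zmultiplesHom _ ((2 : ZMod (2 ^ (k + 1))) ^ (k - i.2)), by
      simp only [zmultiplesHom_apply, natCast_zsmul]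
      rw [nsmul_eq_mul]
      push_cast
      rw [← pow_add]
      have h2 : i.2 + 1 + (k - i.2) = k + 1 := by omega
      rw [h2]
      have := ZMod.natCast_self (2 ^ (k + 1))
      push_cast at this
      exact this⟩ : { f : ℤ →+ ZMod (2 ^ (k + 1)) // f ((2 ^ (i.2 + 1) : ℕ) : ℤ) = 0 }) 1
    rw [Int.cast_one] at h2
    rw [h2]
    simp
  · rw [dif_neg h, if_neg h]; rfl

def al (k : ℕ) : C →+ ZMod (2 ^ (k + 1)) :=
  (DFinsupp.liftAddHom (al0 k)).coprod (DFinsupp.evalAddMonoidHom k)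

theorem al0_one' (k n : ℕ) (l : Lam) :
    al0 k (l, n) 1 = if n ≤ k ∧ k ∈ l.1 then (2 : ZMod (2 ^ (k + 1))) ^ (k - n) else 0 :=
  al0_one k (l, n)

theorem al_apply (k : ℕ) (z : X) (b : Bt) :
    al k (z, b) = DFinsupp.liftAddHom (al0 k) z + b k := rfl

theorem al_γ (k : ℕ) (i : I) : al k (γ i) = 0 := by
  obtain ⟨l, n⟩ := i
  have e : al k (γ (l, n)) = (al0 k (l, n) 1 - 2 • al0 k (l, n + 1) 1) +
      (if n ∈ l.1 then - DFinsupp.single n 1 else 0 : Bt) k := by
    unfold γ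
    rw [al_apply, map_sub, map_nsmul, DFinsupp.liftAddHom_apply_single,
      DFinsupp.liftAddHom_apply_single]
    rfl
  rw [e, al0_one', al0_one']
  by_cases h : n ∈ l.1
  · rw [if_pos h, DFinsupp.neg_apply]
    by_cases hk : k = n
    · subst hk
      rw [if_pos ⟨le_refl _, h⟩, if_neg (by omega), DFinsupp.single_eq_same]
      simp
    · rw [DFinsupp.single_eq_of_ne hk]
      by_cases h1 : n + 1 ≤ k ∧ k ∈ l.1
      · rw [if_pos h1, if_pos ⟨by omega, h1.2⟩]
        have e : k - n = (k - (n + 1)) + 1 := by omega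
        rw [e, pow_succ, nsmul_eq_mul]; push_cast; ring
      · rw [if_neg h1, if_neg (by
          rintro ⟨h2, h3⟩
          exact h1 ⟨by omega, h3⟩)]
        simp
  · rw [if_neg h, DFinsupp.zero_apply]
    by_cases h1 : n + 1 ≤ k ∧ k ∈ l.1
    · rw [if_pos h1, if_pos ⟨by omega, h1.2⟩]
      have e : k - n = (k - (n + 1)) + 1 := by omega
      rw [e, pow_succ, nsmul_eq_mul]; push_cast; ring
    · rw [if_neg h1, if_neg (by
        rintro ⟨h2, h3⟩
        rcases Nat.lt_or_ge n k with h4 | h4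
        · exact h1 ⟨by omega, h3⟩
        · have : n = k := le_antisymm h2 h4
          rw [this] at h; exact h h3)]
      simp

theorem al_b (k : ℕ) (b : Bt) : al k (0, b) = b k := by
  rw [al_apply, map_zero, zero_add]

theorem P_rf (g : P) (hg : g ≠ 1) : ∃ N : Subgroup P, N.Normal ∧ N.FiniteIndex ∧ g ∉ N := by
  by_cases hx : g.x = 0
  · by_cases hy : g.y = 0
    · by_cases hz : g.c.1 = 0
      · have hb : g.c.2 ≠ 0 := by
          intro hb
          apply hg
          apply Heis.ext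
          · exact hx
          · exact hy
          · exact Prod.ext hz hb
        obtain ⟨k, hk⟩ := DFunLike.ne_iff.1 hb
        refine ⟨NS ∅ (al k) (fun i _ => al_γ k i), NS_normal _ _ _, NS_fi _ _ _, ?_⟩
        rintro ⟨_, _, h⟩
        apply hk
        have e : g.c = (0, g.c.2) := Prod.ext hz rfl
        rw [e, al_b] at h
        exact h
      · obtain ⟨i, hi⟩ := DFunLike.ne_iff.1 hz
        refine ⟨N i, N_normal i, N_fi i, ?_⟩
        intro h
        exact hi ((mem_N i g).1 h).2.2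
    · obtain ⟨i, hi⟩ := DFunLike.ne_iff.1 hy
      refine ⟨N i, N_normal i, N_fi i, ?_⟩
      intro h
      exact hi (((mem_N i g).1 h).2.1 i (by simp [S]))
  · obtain ⟨i, hi⟩ := DFunLike.ne_iff.1 hx
    refine ⟨N i, N_normal i, N_fi i, ?_⟩
    intro h
    exact hi (((mem_N i g).1 h).1 i (by simp [S]))

end

end Pool.Agent.Helper453.Ex
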