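import Mathlib
import Pool.Agent.Helper453.Ex

set_option autoImplicit false

namespace Pool.Agent.Helper453.PNot

open Pool.Agent.Helper453.HeisG
open Pool.Agent.Helper453.Ex
open Classical

noncomputable section

theorem pow_small {H : Type} [Group H] [Finite H] (g : H) (n : ℕ) (h1 : g ^ (2 ^ (n + 1)) = 1)
    (h2 : Nat.card H ≤ 2 ^ n) : g ^ (2 ^ n) = 1 := by
  have hd : orderOf g ∣ 2 ^ (n + 1) := orderOf_dvd_of_pow_eq_one h1
  obtain ⟨a, ha, ha'⟩ := (Nat.dvd_prime_pow Nat.prime_two).1 hd
  have hle : orderOf g ≤ 2 ^ n := (Nat.le_of_dvd Nat.card_pos (orderOf_dvd_natCard g)).trans h2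
  have ha2 : a ≤ n := by
    rw [ha'] at hle
    exact (Nat.pow_le_pow_iff_right (by norm_num)).1 hle
  rw [← orderOf_dvd_iff_pow_eq_one, ha']
  exact pow_dvd_pow 2 ha2

def gx (i : I) : P := ⟨DFinsupp.single i 1, 0, 0⟩
def gy (i : I) : P := ⟨0, DFinsupp.single i 1, 0⟩

theorem comm1 (i j : I) (h : i ≠ j) : gx i * gy j = gy j * gx i := by
  have h1 := Heis.comm_eq (β := β) (DFinsupp.single i 1) 0 0 (DFinsupp.single j 1)
  rw [β_single, DFinsupp.single_eq_of_ne h, mul_zero, map_zero, ofAdd_zero, map_one, one_mul] at h1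
  exact h1

theorem comm2 (i : I) : gx i * gy i = Heis.cen (Multiplicative.ofAdd (γ i)) * (gy i * gx i) := by
  have h1 := Heis.comm_eq (β := β) (DFinsupp.single i 1) 0 0 (DFinsupp.single i 1)
  rw [β_single, DFinsupp.single_eq_same, mul_one, m_one] at h1
  exact h1

/-- central elements -/
def cn : Multiplicative C →* P := Heis.cen

def bb (k : ℕ) : C := (0, DFinsupp.single k 1)
def tt (l : Lam) (n : ℕ) : C := (DFinsupp.single (l, n) 1, 0)

theorem bb_ord (k : ℕ) : (2 ^ (k + 1)) • bb k = 0 := by
  unfold bb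
  apply Prod.ext
  · simp
  · show (2 ^ (k + 1)) • (DFinsupp.single k 1 : Bt) = 0
    rw [← DFinsupp.single_smul, nsmul_one, ZMod.natCast_self, DFinsupp.single_zero]

theorem bb_ne (k : ℕ) : (2 ^ k) • bb k ≠ 0 := by
  intro h
  have h1 : ((2 ^ k) • (DFinsupp.single k 1 : Bt)) = 0 := congrArg Prod.snd h
  rw [← DFinsupp.single_smul, nsmul_one] at h1
  have h2 := DFunLike.congr_fun h1 k
  rw [DFinsupp.single_eq_same, DFinsupp.zero_apply] at h2
  rw [ZMod.natCast_eq_zero_iff] at h2
  have h3 := Nat.le_of_dvd (by positivity) h2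
  rw [pow_succ] at h3
  have : 0 < 2 ^ k := by positivity
  omega

theorem tt_ord (l : Lam) (n : ℕ) : (2 ^ (n + 1)) • tt l n = 0 := by
  unfold tt
  apply Prod.ext
  · show (2 ^ (n + 1)) • (DFinsupp.single (l, n) 1 : X) = 0
    rw [← DFinsupp.single_smul, nsmul_one]
    have : ((2 ^ (n + 1) : ℕ) : ZMod (2 ^ ((l, n) : I).2.succ)) = 0 := ZMod.natCast_self _
    exact (congrArg (DFinsupp.single (l, n)) this).trans (DFinsupp.single_zero _)
  · simp

theorem γ_eq (l : Lam) (n : ℕ) :
    tt l n = γ (l, n) + 2 • tt l (n + 1) + (if n ∈ l.1 then bb n else 0) := by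
  unfold tt γ nx bb
  apply Prod.ext
  · by_cases h : n ∈ l.1
    · simp [h]
    · simp [h]
  · by_cases h : n ∈ l.1
    · simp [h]
    · simp [h]

theorem P_not : ¬ Wreath.SDF P := by
  rintro ⟨J, F, hG, hF, f, hinj, hfin⟩
  let φ : ∀ j, P →* F j := fun j => (Pi.evalMonoidHom F j).comp f
  have hφ : ∀ g, {j | φ j g ≠ 1}.Finite := hfin
  have hφi : ∀ g, g ≠ 1 → ∃ j, φ j g ≠ 1 := by
    intro g hg
    by_contra hcon
    push Not at hcon
    exact hg (hinj (by rw [map_one]; funext j; exact hcon j))
  let Θ : ∀ j, Multiplicative C →* F j := fun j => (φ j).comp cn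
  let c : ℕ → C := fun k => (2 ^ k) • bb k
  have hcinj : Function.Injective cn := by
    intro a b hab
    exact congrArg (fun p : P => Multiplicative.ofAdd p.c) hab
  have hc : ∀ k, ∃ j, Θ j (Multiplicative.ofAdd (c k)) ≠ 1 := by
    intro k
    apply hφi
    intro h
    have := hcinj (h.trans (map_one cn).symm)
    exact bb_ne k this
  have hB : ∀ j, {k | Θ j (Multiplicative.ofAdd (c k)) ≠ 1}.Finite := by
    intro j
    refine (Set.finite_Iio (Nat.card (F j))).subset ?_
    intro k hk
    by_contra hcon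
    apply hk
    simp only [Set.mem_Iio, not_lt] at hcon
    simp only [c]
    rw [ofAdd_nsmul, map_pow]
    refine pow_small _ k ?_ (hcon.trans (Nat.lt_two_pow_self).le)
    rw [← map_pow, ← ofAdd_nsmul, bb_ord, ofAdd_zero, map_one]
  have hC : ∀ k, {j | Θ j (Multiplicative.ofAdd (c k)) ≠ 1}.Finite := fun k => hφ _
  choose jj hjj using hc
  -- for each k, only finitely many a with Θ (jj a) (c k) ≠ 1
  have hjfib : ∀ j, {a | jj a = j}.Finite := by
    intro j
    refine (hB j).subset ?_
    rintro a rfl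
    exact hjj a
  have hC' : ∀ k, {a | Θ (jj a) (Multiplicative.ofAdd (c k)) ≠ 1}.Finite := by
    intro k
    refine ((hC k).biUnion (fun j _ => hjfib j)).subset ?_
    intro a ha
    simp only [Set.mem_iUnion]
    exact ⟨jj a, ha, rfl⟩
  let r : ℕ → ℕ → Prop := fun a k => a ≠ k ∧ Θ (jj a) (Multiplicative.ofAdd (c k)) = 1 ∧
    Θ (jj k) (Multiplicative.ofAdd (c a)) = 1
  have : Std.Symm r := ⟨fun a b h => ⟨h.1.symm, h.2.2, h.2.1⟩⟩
  obtain ⟨e, -, he⟩ := exists_seq_of_forall_finset_exists' (fun _ => True) r (by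
    intro s _
    have hfin : (⋃ a ∈ s, ({a} ∪ {k | Θ (jj a) (Multiplicative.ofAdd (c k)) ≠ 1} ∪
        {k | Θ (jj k) (Multiplicative.ofAdd (c a)) ≠ 1}) : Set ℕ).Finite := by
      refine s.finite_toSet.biUnion (fun a _ => ?_)
      exact ((Set.finite_singleton a).union (hB (jj a))).union (hC' a)
    obtain ⟨y, hy⟩ := hfin.exists_notMem
    refine ⟨y, trivial, fun x hx => ?_⟩
    simp only [Set.mem_iUnion, not_exists] at hy
    have h1 := hy x hx
    simp only [Set.mem_union, Set.mem_singleton_iff, not_or] at h1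
    refine ⟨fun h => h1.1.1 h.symm, ?_, ?_⟩
    · by_contra h; exact h1.1.2 h
    · by_contra h; exact h1.2 h)
  let T : Set ℕ := Set.range e
  have hTinj : Function.Injective e := by
    intro a b hab
    by_contra hne
    exact (he hne).1 hab
  have hTr : ∀ a ∈ T, ∀ k ∈ T, a ≠ k → Θ (jj a) (Multiplicative.ofAdd (c k)) = 1 := by
    rintro _ ⟨a, rfl⟩ _ ⟨k, rfl⟩ hne
    have : a ≠ k := fun h => hne (by rw [h])
    exact (he this).2.1
  -- choice of the second label
  have hbad : ∀ (j : J) (n : ℕ), {r : Set ℕ | Θ j (Multiplicative.ofAdd (γ ((T, r), n))) ≠ 1}.Finite := by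
    intro j n
    refine Set.Finite.of_injOn (f := fun r => φ j (gx ((T, r), n))) (t := Set.univ)
      (fun _ _ => Set.mem_univ _) ?_ Set.finite_univ
    intro r hr r' hr' hrr
    by_contra hne
    simp only at hrr
    apply hr'
    have h1 : (((T, r), n) : I) ≠ ((T, r'), n) := by
      intro h
      apply hne
      exact congrArg (fun p : I => p.1.2) h
    have h2 := congrArg (φ j) (comm1 _ _ h1)
    have h3 := congrArg (φ j) (comm2 ((T, r'), n))
    simp only [map_mul] at h2 h3
    rw [hrr] at h2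
    rw [h2] at h3
    exact (right_eq_mul.1 h3)
  have hcount : (⋃ (a : ℕ) (n : ℕ),
      {r : Set ℕ | Θ (jj (e a)) (Multiplicative.ofAdd (γ ((T, r), n))) ≠ 1}).Countable := by
    refine Set.countable_iUnion (fun a => Set.countable_iUnion (fun n => ?_))
    exact (hbad _ _).countable
  obtain ⟨r0, hr0⟩ : ∃ r0 : Set ℕ, ∀ (a n : ℕ),
      Θ (jj (e a)) (Multiplicative.ofAdd (γ ((T, r0), n))) = 1 := by
    by_contra hcon
    push Not at hcon
    have huniv : (Set.univ : Set (Set ℕ)).Countable := by
      refine hcount.mono ?_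
      intro r _
      obtain ⟨a, n, h⟩ := hcon r
      simp only [Set.mem_iUnion]
      exact ⟨a, n, h⟩
    have hcs : Countable (Set ℕ) := Set.countable_univ_iff.1 huniv
    obtain ⟨g, hg⟩ := exists_surjective_nat (Set ℕ)
    exact Function.cantor_surjective g hg
  let l : Lam := (T, r0)
  have hkey : ∀ a : ℕ, Θ (jj (e a)) (Multiplicative.ofAdd (tt l 0)) ≠ 1 := by
    intro a
    have hstep : ∀ M : ℕ, Θ (jj (e a)) (Multiplicative.ofAdd (tt l 0)) =
        Θ (jj (e a)) (Multiplicative.ofAdd ((2 ^ M) • tt l M)) *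
        (if e a < M then Θ (jj (e a)) (Multiplicative.ofAdd (c (e a))) else 1) := by
      intro M
      induction M with
      | zero => simp
      | succ M ih =>
        rw [ih]
        have h1 : Θ (jj (e a)) (Multiplicative.ofAdd ((2 ^ M) • tt l M)) =
            Θ (jj (e a)) (Multiplicative.ofAdd ((2 ^ (M + 1)) • tt l (M + 1))) *
            (if M = e a then Θ (jj (e a)) (Multiplicative.ofAdd (c (e a))) else 1) := by
          rw [γ_eq l M, smul_add, smul_add, ofAdd_add, ofAdd_add, map_mul, map_mul]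
          have h2 : Θ (jj (e a)) (Multiplicative.ofAdd ((2 ^ M) • γ (l, M))) = 1 := by
            rw [ofAdd_nsmul, map_pow]
            have : Θ (jj (e a)) (Multiplicative.ofAdd (γ (l, M))) = 1 := hr0 a M
            rw [this, one_pow]
          rw [h2, one_mul, smul_smul, ← pow_succ]
          congr 1
          by_cases hM : M ∈ l.1
          · rw [if_pos hM]
            by_cases hMa : M = e a
            · rw [if_pos hMa, ← hMa]
            · rw [if_neg hMa]
              exact hTr (e a) ⟨a, rfl⟩ M hM (Ne.symm hMa)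
          · have hMa : M ≠ e a := by
              intro h
              exact hM ⟨a, h.symm⟩
            rw [if_neg hM, if_neg hMa, smul_zero, ofAdd_zero, map_one]
        rw [h1, mul_assoc]
        congr 1
        by_cases h2 : M = e a
        · rw [if_pos h2, if_neg (by omega), if_pos (by omega), mul_one]
        · rw [if_neg h2, one_mul]
          by_cases h3 : e a < M
          · rw [if_pos h3, if_pos (by omega)]
          · rw [if_neg h3, if_neg (by omega)]
    have h4 := hstep (e a + 1 + Nat.card (F (jj (e a))))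
    rw [if_pos (by omega)] at h4
    have h5 : Θ (jj (e a)) (Multiplicative.ofAdd ((2 ^ (e a + 1 + Nat.card (F (jj (e a))))) •
        tt l (e a + 1 + Nat.card (F (jj (e a)))))) = 1 := by
      rw [ofAdd_nsmul, map_pow]
      refine pow_small _ _ ?_ ?_
      · rw [← map_pow, ← ofAdd_nsmul, tt_ord, ofAdd_zero, map_one]
      · refine le_trans (Nat.lt_two_pow_self).le (Nat.pow_le_pow_right (by norm_num) (by omega))
    rw [h5, one_mul] at h4
    rw [h4]
    exact hjj (e a)
  have hinf : (Set.range (fun a => jj (e a))).Infinite := by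
    refine Set.infinite_range_of_injective ?_
    intro a b hab
    by_contra hne
    simp only at hab
    have h1 := (he hne).2.1
    rw [hab] at h1
    exact hjj (e b) h1
  apply hinf
  refine (hφ (cn (Multiplicative.ofAdd (tt l 0)))).subset ?_
  rintro _ ⟨a, rfl⟩
  exact hkey a

end

end Pool.Agent.Helper453.PNot
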